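import Mathlib
import Pool.Agent.Work.MP_44129c_co.X1.Defs
import Pool.Agent.Work.MP_44129c_co.W.Defs
import Pool.Agent.Work.MP_44129c_co.N.C34

/-!
# MP_44129c_co/O1, Defs (helper8; FIXED, do not change): odd `m`

`cla c u a` (X1/Defs) = the class of colour `a` at `u`, `DD c u v ⊥` = the number of `z ≠ u, v` with `c u z ≠ c v z` (G/PDefs).
`OS c s`: the situation (`c` symmetric, `ZSF`, `m + s` vertices, `m` odd, `3 s - 2 ≤ m ≤ 3 s + 2`).
Paper: helper43 (`/team-store/44129c_helper43_7.md`, sections A, B).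
-/

set_option autoImplicit false

namespace ZS44129
namespace O1

open Finset E X1

variable {V : Type} [Fintype V] [DecidableEq V] {m : ℕ}

/-- the situation. -/
structure OS (c : V → V → ZMod m) (s : ℕ) : Prop where
  sym : ∀ x y, c x y = c y x
  zsf : ZSF m c
  card : Fintype.card V = m + s
  s4 : 4 ≤ s
  m1 : 3 * s ≤ m + 2
  m2 : m ≤ 3 * s + 2
  odd : ¬ 2 ∣ m

theorem mem_cla {c : V → V → ZMod m} {u w : V} {a : ZMod m} : w ∈ cla c u a ↔ w ≠ u ∧ c u w = a := by
  unfold cla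
  rw [mem_filter, mem_erase]
  exact ⟨fun h => ⟨h.1.1, h.2⟩, fun h => ⟨⟨h.1, mem_univ w⟩, h.2⟩⟩

end O1
end ZS44129
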