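import Mathlib
import Pool.Agent.Work.MP_44129c_co.O1.Defs

/-!
# MP_44129c_co/O1, C3D (size M): few own switches if all classes are small

`X = XX u x`, `|X| = m + s - 2` (`G.card_XX`), `D = #{al ≠ ga}`, `f w = max (al w) (ga w)`, `g w = min (al w) (ga w)`.
PROOF.  If `m ≥ 2 s + D` the first alternative holds (`s ≥ 1`).  Otherwise use `c3` (N/C34).
(1) Second alternative of `c3`: `cost θ a b ≥ 1` if `a ≠ b` (`min a b < max a b`: if `min < θ ≤ max` the first summand is `1`; if `θ ≤ min` the second is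
`≥ max - θ ≥ 1`; if `max < θ` the third is `≥ θ - 1 - min ≥ 1`), and `cost ≥ 0` always.  So `D ≤ ∑ cost ≤ m - s - 1`.
(2) First alternative: put `q w = max (f w - θ) 0 + max (θ - g w) 0`.  For every `w`: `q w ≥ [al w ≠ ga w] + [al w ≠ θ ∧ ga w ≠ θ]` and
`q w ≥ [al w ≠ θ] + [ga w ≠ θ] - [al w ≠ θ ∧ ga w ≠ θ]` (case distinctions).  Adding the two and summing over `X`:
`2 ∑ q ≥ D + #{w ∈ X : al w ≠ θ} + #{w ∈ X : ga w ≠ θ}`.  As `al w = θ` implies `c u w = θ` (`h.hu`), `#{w ∈ X : al w = θ} ≤ |cla c u θ| ≤ d`, so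
`#{w ∈ X : al w ≠ θ} ≥ m + s - 2 - d`, and the same for `ga` (class of `x`).  `2 (m - 2) ≥ D + 2 (m + s - 2 - d)` is `D + 2 s ≤ 2 d`.
-/

set_option autoImplicit false

namespace ZS44129
namespace O1

open Finset E X1 N

variable {V : Type} [Fintype V] [DecidableEq V] {m : ℕ}

private theorem c3d_cost (θ a b : ℤ) : (if a ≠ b then 1 else 0) ≤ cost θ a b := by
  unfold cost
  split_ifs <;> omega

private theorem c3d_q (θ a b : ℤ) : (if a ≠ b then 1 else 0) + (if a ≠ θ then 1 else 0) +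
    (if b ≠ θ then 1 else 0) ≤ 2 * (max (max a b - θ) 0 + max (θ - min a b) 0) := by
  split_ifs <;> omega

private theorem c3d_cnt {c : V → V → ZMod m} {u x v : V} (hv : v = u ∨ v = x) {al : V → ℤ}
    (hal : ∀ w, w ≠ u → w ≠ x → (al w : ZMod m) = c v w) (θ : ℤ) {s d : ℕ}
    (hX : (XX u x).card + 2 = m + s) (hd : ∀ a, (cla c v a).card ≤ d) :
    m + s ≤ ((XX u x).filter (fun w => al w ≠ θ)).card + d + 2 := by
  have h1 := card_filter_add_card_filter_not (s := XX u x) (fun w => al w = θ)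
  have h2 : ((XX u x).filter (fun w => al w = θ)).card ≤ d := by
    refine le_trans (card_le_card ?_) (hd (θ : ZMod m))
    intro w hw
    obtain ⟨h3, h4⟩ := mem_filter.1 hw
    obtain ⟨h5, h6⟩ := mem_XX.1 h3
    rw [mem_cla, ← hal w h5 h6, h4]
    refine ⟨?_, rfl⟩
    rcases hv with rfl | rfl
    · exact h5
    · exact h6
  simp only [ne_eq] at *
  omega

theorem c3d {c : V → V → ZMod m} {u x : V} {z0 : ℤ} {al ga : V → ℤ} (h : PLift c u x z0 al ga) {s d : ℕ}
    (hV : Fintype.card V = m + s) (hs : 1 ≤ s) (hm : 2 ≤ m) (hu : ∀ a, (cla c u a).card ≤ d)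
    (hx : ∀ a, (cla c x a).card ≤ d) :
    ((XX u x).filter (fun w => al w ≠ ga w)).card + s + 1 ≤ m ∨
      ((XX u x).filter (fun w => al w ≠ ga w)).card + 2 * s ≤ 2 * d := by
  have hX : (XX u x).card + 2 = m + s := by
    rw [← hV]
    exact card_XX h.ne
  by_cases hD : m < 2 * s + ((XX u x).filter (fun w => al w ≠ ga w)).card
  · have hDs : (((XX u x).filter (fun w => al w ≠ ga w)).card : ℤ) =
        ∑ w ∈ XX u x, (if al w ≠ ga w then 1 else 0) := by
      rw [card_filter]
      push_cast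
      rfl
    rcases c3 h hV hs hm hD with ⟨θ, hq, -, -⟩ | ⟨θ, hq, -, -⟩
    · right
      have e1 := c3d_cnt (c := c) (Or.inl rfl) h.hu θ hX hu
      have e2 := c3d_cnt (c := c) (Or.inr rfl) h.hx θ hX hx
      have e3 : (((XX u x).filter (fun w => al w ≠ θ)).card : ℤ) =
          ∑ w ∈ XX u x, (if al w ≠ θ then 1 else 0) := by
        rw [card_filter]
        push_cast
        rfl
      have e4 : (((XX u x).filter (fun w => ga w ≠ θ)).card : ℤ) =
          ∑ w ∈ XX u x, (if ga w ≠ θ then 1 else 0) := by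
        rw [card_filter]
        push_cast
        rfl
      have e5 : ∑ w ∈ XX u x, ((if al w ≠ ga w then 1 else 0) + (if al w ≠ θ then 1 else 0) +
          (if ga w ≠ θ then 1 else 0)) ≤
          ∑ w ∈ XX u x, 2 * (max (max (al w) (ga w) - θ) 0 + max (θ - min (al w) (ga w)) 0) :=
        sum_le_sum fun w _ => c3d_q θ (al w) (ga w)
      rw [sum_add_distrib, sum_add_distrib, ← mul_sum, ← hDs, ← e3, ← e4] at e5
      zify at e1 e2 ⊢
      linarith
    · left
      have e5 : ∑ w ∈ XX u x, (if al w ≠ ga w then 1 else 0) ≤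
          ∑ w ∈ XX u x, cost θ (al w) (ga w) :=
        sum_le_sum fun w _ => c3d_cost θ (al w) (ga w)
      rw [← hDs] at e5
      zify
      linarith
  · left
    omega

end O1
end ZS44129
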