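import Mathlib
import Pool.Agent.Work.MP_44129c_co.O1.C3D

/-!
# MP_44129c_co/O1, GpDD (size M): lift of a good pair; the bound for `DD`

PROOF of `gp_lift`.  As `good_lift` in PL/Good (copy it): `G.gp_unit` gives `g`, `n`; `pair_lift_gen` with `F = {x ∈ XX u v : n x ≠ 0}`; then `plift_of_LP`
(N/PLift; the unit is `g⁻¹`).
PROOF of `gp_dd`.  `gp_lift`, and `c3d` for the colouring `c' = g * c - β`: `cla c' u a = cla c u (g⁻¹ (a + β))`, so its classes have at most `d` elements;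
`c u w ≠ c v w` implies `al w ≠ ga w` (`(al w : ZMod m) = g c u w - β`), so `DD c u v ⊥ ≤ #{al ≠ ga}` (`DD`, `Dn`: `c u w - c v w ∉ ⊥`).
-/

set_option autoImplicit false

namespace ZS44129
namespace O1

open Finset E X1 N

variable {V : Type} [Fintype V] [DecidableEq V] {m : ℕ}

theorem gp_lift [NeZero m] {c : V → V → ZMod m} (hz : ZSF m c) {s : ℕ} (hs : 3 ≤ s)
    (hV : Fintype.card V = m + s) {u v : V} (h : G.GP c u v) :
    ∃ (g : (ZMod m)ˣ) (β : ZMod m) (z0 : ℤ) (al ga : V → ℤ),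
      PLift (fun x y => (g : ZMod m) * c x y - β) u v z0 al ga := by
  obtain ⟨g, n, hn, hW, hown⟩ := G.gp_unit c hz (s := s) (by omega) hV h
  have huv := h.1
  have hXX : G.XX u v = XX u v := rfl
  rw [hXX] at hW hown
  obtain ⟨β, z0, val, h1, h2, h4, h5⟩ := pair_lift_gen hs hV c hz huv
    ((XX u v).filter (fun x => n x ≠ 0)) (filter_subset _ _) (by omega) g n
    (by intro x hx; exact (mem_filter.1 hx).2)
    (by
      intro x hx
      exact hn x (mem_filter.1 hx).1)
    (by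
      rw [sum_filter_of_ne (fun x _ h => by
        intro h0
        rw [h0, abs_zero] at h
        exact h rfl)]
      exact hW)
  have hLP : LP (fun x y => ((g⁻¹ : (ZMod m)ˣ) : ZMod m) * c x y - β) u v z0 val := by
    refine ⟨huv, ?_, ?_, h2, h4, ?_⟩
    · intro x hx hx'
      exact (h1 x (mem_XX.2 ⟨hx, hx'⟩)).1
    · intro x hx hx'
      exact (h1 x (mem_XX.2 ⟨hx, hx'⟩)).2
    · refine lt_of_lt_of_le hown (Nat.mul_le_mul_left 2 (card_le_card ?_))
      intro x hx
      rw [mem_filter]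
      refine ⟨(mem_filter.1 hx).1, fun h => ?_⟩
      have h6 := h5 x hx
      rw [h, sub_self] at h6
      exact (mem_filter.1 hx).2 h6.symm
  exact ⟨g⁻¹, β, z0, _, _, plift_of_LP hLP⟩

theorem gp_dd [NeZero m] {c : V → V → ZMod m} (hz : ZSF m c) {s d : ℕ} (hs : 3 ≤ s) (hm : 2 ≤ m)
    (hV : Fintype.card V = m + s) {u v : V} (h : G.GP c u v) (hu : ∀ a, (cla c u a).card ≤ d)
    (hv : ∀ a, (cla c v a).card ≤ d) : G.DD c u v ⊥ + s + 1 ≤ m ∨ G.DD c u v ⊥ + 2 * s ≤ 2 * d := by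
  obtain ⟨g, β, z0, al, ga, hP⟩ := gp_lift hz hs hV h
  have hgg : ((g⁻¹ : (ZMod m)ˣ) : ZMod m) * (g : ZMod m) = 1 := by
    rw [← Units.val_mul, inv_mul_cancel, Units.val_one]
  have hcl : ∀ (w : V) (a : ZMod m),
      cla (fun x y => (g : ZMod m) * c x y - β) w a ⊆
        cla c w (((g⁻¹ : (ZMod m)ˣ) : ZMod m) * (a + β)) := by
    intro w a y hy
    rw [mem_cla] at hy ⊢
    refine ⟨hy.1, ?_⟩
    have h1 : (g : ZMod m) * c w y = a + β := by
      have := hy.2
      rw [← this]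
      ring
    rw [← h1, ← mul_assoc, hgg, one_mul]
  have h3 := c3d hP hV (by omega) hm (fun a => (card_le_card (hcl u a)).trans (hu _))
    (fun a => (card_le_card (hcl v a)).trans (hv _))
  have h4 : G.DD c u v ⊥ ≤ ((XX u v).filter (fun w => al w ≠ ga w)).card := by
    unfold G.DD G.Dn
    apply card_le_card
    intro w hw
    replace hw : w ∈ G.XX u v ∧ c u w - c v w ∉ (⊥ : AddSubgroup (ZMod m)) := by
      classical
      exact mem_filter.1 hw
    rw [mem_filter]
    refine ⟨hw.1, fun h5 => hw.2 ?_⟩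
    rw [AddSubgroup.mem_bot]
    have hwX := mem_XX.1 hw.1
    have h6 := hP.hu w hwX.1 hwX.2
    have h7 := hP.hx w hwX.1 hwX.2
    rw [h5, h7] at h6
    have h8 : (g : ZMod m) * c v w = (g : ZMod m) * c u w := by
      have h9 : (g : ZMod m) * c v w - β = (g : ZMod m) * c u w - β := h6
      exact sub_left_injective h9
    have h10 : ((g⁻¹ : (ZMod m)ˣ) : ZMod m) * ((g : ZMod m) * c v w) =
        ((g⁻¹ : (ZMod m)ˣ) : ZMod m) * ((g : ZMod m) * c u w) := by rw [h8]
    rw [← mul_assoc, ← mul_assoc, hgg, one_mul, one_mul] at h10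
    rw [h10, sub_self]
  omega

end O1
end ZS44129
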