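import Mathlib
import Pool.Agent.Work.MP_44129c_co.O1.Defs
import Pool.Agent.Work.MP_44129c_co.G.LemQ

/-!
# MP_44129c_co/O1, Tight (size M, mostly copying): a tight heavy pair with `|P| = 3` has a class of size `≥ m - 1`

PROOF.  This is steps (1)-(3) of `G/Tight3.lean` (read its header).  Copy from `G/Tight3.lean` the private theorems `t3_abs`, `t3_side`, `t3_side2` and the first part of the
proof of `tight3` (up to `obtain ⟨y0, hy0, k, k', hkk, hak, …⟩ := t3_abs …`).  It gives `Y` with `|Y| = m`, `y0 ∈ Y`, `k : ZMod 3`, with `χ (c u z - r0) = k` for all `z ∈ Y`, `z ≠ y0`;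
so `c u z = r0 + ψ k =: a` for these `m - 1` vertices `z`, and `Y.erase y0 ⊆ cla c u a` (`z ≠ u` by `hYm`).
-/

set_option autoImplicit false

namespace ZS44129
namespace G

open Finset

variable {V : Type} [Fintype V] [DecidableEq V] {m : ℕ}

omit [Fintype V] in
/-- the abstract part (3), (4) with values in `ZMod 3`. -/
private theorem t3_abs {Y : Finset V} (h9 : 9 ≤ Y.card) (h3 : 3 ∣ Y.card) (a b : V → ZMod 3)
    (hA : ∑ y ∈ Y, a y ≠ 0) (hB : ∑ y ∈ Y, b y ≠ 0)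
    (h1 : ∀ y ∈ Y, ∀ z ∈ Y, y ≠ z → b y + ∑ x ∈ Y, a x - a z ≠ 0)
    (h2 : ∀ y ∈ Y, ∀ z ∈ Y, y ≠ z → a y + ∑ x ∈ Y, b x - b z ≠ 0) :
    ∃ y0 ∈ Y, ∃ k k' : ZMod 3, k ≠ k' ∧ (∀ y ∈ Y, y ≠ y0 → a y = k) ∧ a y0 = k' ∧
      (∀ y ∈ Y, y ≠ y0 → b y = k') ∧ b y0 = k ∧ ∑ x ∈ Y, a x = k' - k ∧
      ∑ x ∈ Y, b x = k - k' := by
  have hconst : ∀ (f : V → ZMod 3) (v : ZMod 3), (∀ y ∈ Y, f y = v) → ∑ y ∈ Y, f y = 0 := by
    intro f v hf
    rw [sum_congr rfl hf, sum_const, nsmul_eq_mul]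
    obtain ⟨q, hq⟩ := h3
    rw [hq, Nat.cast_mul]
    have : ((3 : ℕ) : ZMod 3) = 0 := by decide
    rw [this, zero_mul, zero_mul]
  have hone : ∀ (f : V → ZMod 3) (v : ZMod 3) (y0 : V), y0 ∈ Y → (∀ y ∈ Y, y ≠ y0 → f y = v) →
      ∑ y ∈ Y, f y = f y0 - v := by
    intro f v y0 hy0 hf
    have e1 : ∑ y ∈ Y, (if y = y0 then v else f y) = 0 := by
      refine hconst _ v fun y hy => ?_
      by_cases h : y = y0
      · rw [if_pos h]
      · rw [if_neg h]
        exact hf y hy h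
    rw [← add_sum_erase Y _ hy0] at e1 ⊢
    rw [if_pos rfl] at e1
    have e2 : ∑ x ∈ Y.erase y0, (if x = y0 then v else f x) = ∑ x ∈ Y.erase y0, f x :=
      sum_congr rfl fun x hx => if_neg (mem_erase.1 hx).1
    rw [e2] at e1
    have e3 : ∑ x ∈ Y.erase y0, f x = -v := by
      rw [eq_neg_iff_add_eq_zero, add_comm]
      exact e1
    rw [e3]
    abel
  have hpig : ∀ f : V → ZMod 3, ∃ v : ZMod 3, 2 < (Y.filter (fun y => f y = v)).card := by
    intro f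
    obtain ⟨v, -, hv⟩ := exists_lt_card_fiber_of_mul_lt_card_of_maps_to
      (s := Y) (t := (univ : Finset (ZMod 3))) (f := f) (n := 2) (fun x _ => mem_univ _)
      (by rw [card_univ, ZMod.card]; omega)
    exact ⟨v, hv⟩
  have hocc : ∀ (f : V → ZMod 3) (v : ZMod 3), 2 < (Y.filter (fun y => f y = v)).card →
      ∀ y z : V, ∃ x ∈ Y, x ≠ y ∧ x ≠ z ∧ f x = v := by
    intro f v hv y z
    by_contra hcon
    push Not at hcon
    have hsub : Y.filter (fun y => f y = v) ⊆ {y, z} := by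
      intro x hx
      rw [mem_filter] at hx
      rw [mem_insert, mem_singleton]
      by_contra hx2
      push Not at hx2
      exact hcon x hx.1 hx2.1 hx2.2 hx.2
    have h4 := card_le_card hsub
    have h5 := card_le_two (a := y) (b := z)
    omega
  obtain ⟨k, hk⟩ := hpig a
  obtain ⟨l, hl⟩ := hpig b
  set A := ∑ x ∈ Y, a x with hAd
  set B := ∑ x ∈ Y, b x with hBd
  have hb1 : ∀ y ∈ Y, b y + A - k ≠ 0 := by
    intro y hy
    obtain ⟨x, hx, hxy, -, hxk⟩ := hocc a k hk y y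
    have := h1 y hy x hx hxy.symm
    rwa [hxk] at this
  have ha1 : ∀ y ∈ Y, a y + B - l ≠ 0 := by
    intro y hy
    obtain ⟨x, hx, hxy, -, hxk⟩ := hocc b l hl y y
    have := h2 y hy x hx hxy.symm
    rwa [hxk] at this
  obtain ⟨y0, hy0, hy0k⟩ : ∃ y0 ∈ Y, a y0 ≠ k := by
    by_contra hcon
    push Not at hcon
    exact hA (hconst a k hcon)
  obtain ⟨x1, hx1, -, -, hx1k⟩ := hocc a k hk y0 y0
  have hdich : ∀ y ∈ Y, a y = k ∨ a y = a y0 := by
    intro y hy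
    have e1 := ha1 y hy
    have e2 := ha1 y0 hy0
    have e3 := ha1 x1 hx1
    rw [hx1k] at e3
    have key : ∀ t k' k B l : ZMod 3, k' ≠ k → t + B - l ≠ 0 → k' + B - l ≠ 0 →
        k + B - l ≠ 0 → t = k ∨ t = k' := by decide
    exact key _ _ _ _ _ hy0k e1 e2 e3
  have huniq : ∀ y ∈ Y, y ≠ y0 → a y = k := by
    intro y1 hy1 hne
    rcases hdich y1 hy1 with h | h
    · exact h
    exfalso
    have hocc2 : ∀ y : V, ∃ x ∈ Y, x ≠ y ∧ a x = a y0 := by
      intro y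
      by_cases hy : y0 = y
      · exact ⟨y1, hy1, fun h' => hne (h'.trans hy.symm), h⟩
      · exact ⟨y0, hy0, hy, rfl⟩
    apply hB
    refine hconst b (-k - a y0 - A) fun y hy => ?_
    obtain ⟨x, hx, hxy, hxe⟩ := hocc2 y
    have e1 := h1 y hy x hx hxy.symm
    rw [hxe] at e1
    have e2 := hb1 y hy
    have key : ∀ t k' k A : ZMod 3, k' ≠ k → t + A - k' ≠ 0 → t + A - k ≠ 0 →
        t = -k - k' - A := by decide
    exact key _ _ _ _ hy0k e1 e2
  have hAv : A = a y0 - k := hone a k y0 hy0 huniq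
  have hbk : ∀ y ∈ Y, y ≠ y0 → b y = a y0 := by
    intro y hy hne
    have e1 := h1 y hy y0 hy0 hne
    have e2 := hb1 y hy
    rw [hAv] at e1 e2
    have key : ∀ t k' k : ZMod 3, k' ≠ k → t + (k' - k) - k' ≠ 0 → t + (k' - k) - k ≠ 0 →
        t = k' := by decide
    exact key _ _ _ hy0k e1 e2
  have hBv : B = b y0 - a y0 := hone b (a y0) y0 hy0 hbk
  suffices hfin : b y0 = k from
    ⟨y0, hy0, k, a y0, fun h => hy0k h.symm, huniq, rfl, hbk, hfin, hAv, by rw [hBv, hfin]⟩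
  obtain ⟨y1, hy1, hy1n, -, -⟩ := hocc a k hk y0 y0
  obtain ⟨y2, hy2, hy2n, hy21, -⟩ := hocc a k hk y0 y1
  have e1 := h2 y1 hy1 y2 hy2 hy21.symm
  have e2 := h2 y1 hy1 y0 hy0 hy1n
  rw [huniq y1 hy1 hy1n, hBv, hbk y2 hy2 hy2n] at e1
  rw [huniq y1 hy1 hy1n, hBv] at e2
  have hBne : b y0 - a y0 ≠ 0 := by rwa [← hBv]
  have key : ∀ μ k' k : ZMod 3, k' ≠ k → μ - k' ≠ 0 → k + (μ - k') - k' ≠ 0 →
      k + (μ - k') - μ ≠ 0 → μ = k := by decide
  exact key _ _ _ hy0k hBne e1 e2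

/-- the general relation for the pair `u, y` with one position `z'` dropped. -/
private theorem t3_side (c : V → V → ZMod m) (hsym : ∀ x y, c x y = c y x) (hZ : ZSF m c)
    (hm : 1 ≤ m) {u w : V} (huw : u ≠ w) {Y : Finset V} (hY : ∀ z ∈ Y, z ≠ u ∧ z ≠ w)
    (hc : Y.card = m) {y z' : V} (hy : y ∈ Y) (hz' : z' ∈ Y) (hne : y ≠ z') (f : V → ZMod m)
    (hf : ∀ x ∈ (Y.erase y).erase z', f x = c u x ∨ f x = c y x) :
    c u y + (c w y + ∑ x ∈ (Y.erase y).erase z', f x) ≠ 0 := by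
  intro h0
  have huy : u ≠ y := (hY y hy).1.symm
  have hw : w ∉ (Y.erase y).erase z' := fun h =>
    (hY w (mem_of_mem_erase (mem_of_mem_erase h))).2 rfl
  refine zsf_pair c hZ hm huy ⟨insert w ((Y.erase y).erase z'), ?_, ?_,
    fun x => if x = w then c y w else f x, ?_, ?_⟩
  · intro x hx
    rw [mem_XX]
    rcases mem_insert.1 hx with h | h
    · rw [h]
      exact ⟨huw.symm, (hY y hy).2.symm⟩
    · have h1 := mem_of_mem_erase h
      exact ⟨(hY x (mem_of_mem_erase h1)).1, (mem_erase.1 h1).1⟩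
  · rw [card_insert_of_notMem hw, card_erase_of_mem (mem_erase.2 ⟨hne.symm, hz'⟩),
      card_erase_of_mem hy, hc]
    have : 1 < Y.card := one_lt_card.2 ⟨y, hy, z', hz', hne⟩
    omega
  · intro x hx
    change (if x = w then c y w else f x) ∈ ({c u x, c y x} : Finset (ZMod m))
    rcases mem_insert.1 hx with h | h
    · rw [if_pos h, h]
      simp
    · have : x ≠ w := fun h' => hw (by rw [← h']; exact h)
      rw [if_neg this]
      rcases hf x h with h1 | h1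
      · rw [h1]; simp
      · rw [h1]; simp
  · have e1 : ∑ x ∈ (Y.erase y).erase z', (if x = w then c y w else f x) =
        ∑ x ∈ (Y.erase y).erase z', f x :=
      sum_congr rfl fun x hx => if_neg fun h' => hw (by rw [← h']; exact hx)
    rw [sum_insert hw, if_pos rfl, e1, eq_neg_iff_add_eq_zero, hsym y w, add_comm]
    exact h0

private theorem t3_side2 (c : V → V → ZMod m) (hsym : ∀ x y, c x y = c y x) (hZ : ZSF m c)
    (hm : 1 ≤ m) {u w : V} (huw : u ≠ w) {Y : Finset V} (hY : ∀ z ∈ Y, z ≠ u ∧ z ≠ w)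
    (hc : Y.card = m) {y z' : V} (hy : y ∈ Y) (hz' : z' ∈ Y) (hne : y ≠ z') :
    c w y + ∑ x ∈ Y, c u x - c u z' ≠ 0 := by
  have h := t3_side c hsym hZ hm huw hY hc hy hz' hne (c u) (fun x _ => Or.inl rfl)
  intro h0
  apply h
  have e1 := add_sum_erase Y (c u) hy
  have e2 := add_sum_erase (Y.erase y) (c u) (mem_erase.2 ⟨hne.symm, hz'⟩)
  rw [← e1, ← e2] at h0
  rw [← h0]
  abel

private theorem tight_aux [NeZero m] (c : V → V → ZMod m) (hsym : ∀ x y, c x y = c y x)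
    (hZ : ZSF m c) {s κ : ℕ} (hV : Fintype.card V = m + s) (hsm : s < m) (hm9 : 9 ≤ m) {u w : V}
    {P : AddSubgroup (ZMod m)} {r0 : ZMod m} (h : Hv c κ u w P r0) (hP : Nat.card P = 3)
    (ht : Nat.card P + Out c u w P r0 ≤ s + 1) : ∃ a : ZMod m, ∃ Y : Finset V,
      m ≤ Y.card + 1 ∧ ∀ z ∈ Y, z ≠ u ∧ c u z = a := by
  classical
  have hm1 : 1 ≤ m := by omega
  have hq := lemQ c hsym hZ hV hsm h
  obtain ⟨huw, hκP, hcuw, -⟩ := h
  have hOe : Out c u w P r0 + 2 = s := by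
    rw [hP] at hq ht
    omega
  have h3m : 3 ∣ m := by
    have := AddSubgroup.card_addSubgroup_dvd_card P
    rwa [hP, Nat.card_zmod] at this
  obtain ⟨Y, hYdef⟩ : ∃ Y : Finset V,
      Y = (XX u w).filter (fun z => c u z - r0 ∈ P ∧ c w z - r0 ∈ P) := ⟨_, rfl⟩
  have hYc : Y.card = m := by
    have h1 := card_XX huw
    have h2 := card_filter_add_card_filter_not (s := XX u w)
      (fun z => c u z - r0 ∈ P ∧ c w z - r0 ∈ P)
    have h3 : ((XX u w).filter (fun z => ¬ (c u z - r0 ∈ P ∧ c w z - r0 ∈ P))).card =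
        Out c u w P r0 := by
      unfold Out np
      congr 1
      refine filter_congr fun x _ => ?_
      unfold Pur
      simp
    rw [hYdef]
    omega
  have hYm : ∀ z ∈ Y, z ≠ u ∧ z ≠ w := by
    intro z hz
    rw [hYdef, mem_filter, mem_XX] at hz
    exact hz.1
  have hYm' : ∀ z ∈ Y, z ≠ w ∧ z ≠ u := fun z hz => ⟨(hYm z hz).2, (hYm z hz).1⟩
  have hYu : ∀ z ∈ Y, c u z - r0 ∈ P := by
    intro z hz
    rw [hYdef, mem_filter] at hz
    exact hz.2.1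
  have hYw : ∀ z ∈ Y, c w z - r0 ∈ P := by
    intro z hz
    rw [hYdef, mem_filter] at hz
    exact hz.2.2
  have hcyc : IsAddCyclic P := by
    have : Fact (Nat.Prime 3) := ⟨Nat.prime_three⟩
    exact isAddCyclic_of_prime_card hP
  have hiso : ∀ n : ℕ, Nat.card P = n → ∃ ψ : ZMod n →+ ZMod m, Function.Injective ψ ∧
      ∀ x ∈ P, ∃ t, ψ t = x := by
    rintro n rfl
    have e := zmodAddCyclicAddEquiv hcyc
    refine ⟨P.subtype.comp e.toAddMonoidHom, ?_, ?_⟩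
    · exact P.subtype_injective.comp e.injective
    · intro x hx
      refine ⟨e.symm ⟨x, hx⟩, ?_⟩
      simp
  obtain ⟨ψ, hψi, hψs⟩ : ∃ ψ : ZMod 3 →+ ZMod m, Function.Injective ψ ∧
      ∀ x ∈ P, ∃ t, ψ t = x := hiso 3 hP
  choose! χ hχ using hψs
  have hr0 : Y.card • r0 = 0 := by
    rw [hYc, nsmul_eq_mul, ZMod.natCast_self, zero_mul]
  have hsum : ∀ f : V → ZMod m, (∀ z ∈ Y, f z - r0 ∈ P) →
      ψ (∑ z ∈ Y, χ (f z - r0)) = ∑ z ∈ Y, f z := by
    intro f hf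
    rw [map_sum, sum_congr rfl fun z hz => hχ _ (hf z hz), sum_sub_distrib, sum_const, hr0,
      sub_zero]
  have hstar : ∀ v : V, (∀ z ∈ Y, z ≠ v) → (∀ z ∈ Y, c v z - r0 ∈ P) →
      ∑ z ∈ Y, χ (c v z - r0) ≠ 0 := by
    intro v hv hvP h0
    refine zsf_star c hZ hm1 v ⟨Y, fun z hz => mem_erase.2 ⟨hv z hz, mem_univ z⟩, hYc, c v,
      fun x _ => mem_singleton_self _, ?_⟩
    rw [← hsum _ hvP, h0, map_zero]
  have hrel : ∀ v v' : V, v ≠ v' → (∀ z ∈ Y, z ≠ v ∧ z ≠ v') → (∀ z ∈ Y, c v z - r0 ∈ P) →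
      (∀ z ∈ Y, c v' z - r0 ∈ P) → ∀ y ∈ Y, ∀ z ∈ Y, y ≠ z →
      χ (c v' y - r0) + ∑ x ∈ Y, χ (c v x - r0) - χ (c v z - r0) ≠ 0 := by
    intro v v' hvv hvY hv hv' y hy z hz hyz h0
    apply t3_side2 c hsym hZ hm1 hvv hvY hYc hy hz hyz
    have h1 := congrArg ψ h0
    rw [map_sub, map_add, hsum _ hv, hχ _ (hv' y hy), hχ _ (hv z hz), map_zero] at h1
    rw [← h1]
    abel
  obtain ⟨y0, hy0, k, k', hkk, hak, hak0, hbk, hbk0, hAs, hBs⟩ := t3_abs (Y := Y)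
    (by rw [hYc]; exact hm9) (by rw [hYc]; exact h3m) (fun z => χ (c u z - r0))
    (fun z => χ (c w z - r0)) (hstar u (fun z hz => (hYm z hz).1) hYu)
    (hstar w (fun z hz => (hYm z hz).2) hYw)
    (fun y hy z hz hyz => hrel u w huw hYm hYu hYw y hy z hz hyz)
    (fun y hy z hz hyz => hrel w u huw.symm hYm' hYw hYu y hy z hz hyz)
  refine ⟨ψ k + r0, Y.erase y0, ?_, ?_⟩
  · rw [card_erase_of_mem hy0]
    omega
  · intro z hz
    obtain ⟨hz0, hzY⟩ := mem_erase.1 hz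
    refine ⟨(hYm z hzY).1, ?_⟩
    have := hχ _ (hYu z hzY)
    rw [hak z hzY hz0] at this
    rw [this]
    abel

end G

namespace O1

open Finset E X1

variable {V : Type} [Fintype V] [DecidableEq V] {m : ℕ}

theorem tight3_cla [NeZero m] (c : V → V → ZMod m) (hsym : ∀ x y, c x y = c y x) (hZ : ZSF m c)
    {s κ : ℕ} (hV : Fintype.card V = m + s) (hsm : s < m) (hm9 : 9 ≤ m) {u w : V}
    {P : AddSubgroup (ZMod m)} {r0 : ZMod m} (h : G.Hv c κ u w P r0) (hP : Nat.card P = 3)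
    (ht : Nat.card P + G.Out c u w P r0 ≤ s + 1) : ∃ a : ZMod m, m ≤ (cla c u a).card + 1 := by
  obtain ⟨a, Y, h1, h2⟩ := G.tight_aux c hsym hZ hV hsm hm9 h hP ht
  refine ⟨a, h1.trans ?_⟩
  have h3 : Y ⊆ cla c u a := fun z hz => mem_cla.2 (h2 z hz)
  have := card_le_card h3
  omega

end O1
end ZS44129
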