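import Mathlib
import Pool.Agent.Work.MP_44129c_co.O1.Defs

/-!
# MP_44129c_co/O1, Sum (size S-M): the sum of all `DD c u v ⊥` over `v`

Put `n = |V| - 1`.
PROOF of `sum_dd`.  `DD c u v ⊥ = #{z ∈ XX u v : c u z ≠ c v z}`.  Exchange the sums: `∑_{v ≠ u} #{z ≠ u, v : c u z ≠ c v z} = ∑_{z ≠ u} #{v ≠ u, z : c u z ≠ c z v}`
(symmetry of `c`), and for `z ≠ u` the number of `v ≠ u, z` with `c z v ≠ c u z = c z u` is `n - |cla c z (c z u)|` (`n` vertices `v ≠ z`; those with
`c z v = c z u` are the class, which contains `u`).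
PROOF of `sum_ge`: every summand is `≥ n - d`.
-/

set_option autoImplicit false

namespace ZS44129
namespace O1

open Finset E X1

variable {V : Type} [Fintype V] [DecidableEq V] {m : ℕ}

private theorem dd_eq (c : V → V → ZMod m) (u v : V) :
    G.DD c u v ⊥ = ∑ z ∈ (univ.erase u).erase v, (if c u z = c v z then 0 else 1) := by
  classical
  unfold G.DD G.Dn G.XX
  rw [Finset.card_filter]
  refine Finset.sum_congr rfl fun z _ => ?_
  by_cases h : c u z = c v z
  · rw [if_pos h, if_neg]
    rw [not_not, AddSubgroup.mem_bot, sub_eq_zero]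
    exact h
  · rw [if_neg h, if_pos]
    rw [AddSubgroup.mem_bot, sub_eq_zero]
    exact h

private theorem cla_eq (c : V → V → ZMod m) (hsym : ∀ x y, c x y = c y x) {u z : V} (hz : z ≠ u) :
    ∑ v ∈ (univ.erase u).erase z, (if c u z = c v z then 0 else 1) + (cla c z (c z u)).card =
      Fintype.card V - 1 := by
  have h1 : cla c z (c z u) =
      insert u (((univ.erase u).erase z).filter (fun v => c u z = c v z)) := by
    ext v
    rw [mem_cla, Finset.mem_insert, Finset.mem_filter, Finset.mem_erase, Finset.mem_erase]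
    constructor
    · rintro ⟨a, b⟩
      by_cases h : v = u
      · exact Or.inl h
      · refine Or.inr ⟨⟨a, h, Finset.mem_univ _⟩, ?_⟩
        rw [hsym u z, hsym v z, b]
    · rintro (a | ⟨⟨a, -, -⟩, b⟩)
      · rw [a]
        exact ⟨hz.symm, rfl⟩
      · refine ⟨a, ?_⟩
        rw [hsym z v, hsym z u, b]
  have h2 : u ∉ ((univ.erase u).erase z).filter (fun v => c u z = c v z) := by
    intro h
    exact Finset.notMem_erase u _ (Finset.mem_of_mem_erase (Finset.mem_filter.1 h).1)
  have h3 : ∑ v ∈ (univ.erase u).erase z, (if c u z = c v z then 0 else 1) =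
      (((univ.erase u).erase z).filter (fun v => ¬ c u z = c v z)).card := by
    rw [Finset.card_filter]
    refine Finset.sum_congr rfl fun v _ => ?_
    by_cases h : c u z = c v z
    · rw [if_pos h, if_neg (not_not.2 h)]
    · rw [if_neg h, if_pos h]
  have h4 := Finset.card_filter_add_card_filter_not (s := (univ.erase u).erase z)
    (fun v => c u z = c v z)
  have h5 : ((univ.erase u).erase z).card + 1 = Fintype.card V - 1 := by
    rw [Finset.card_erase_add_one (Finset.mem_erase.2 ⟨hz, Finset.mem_univ _⟩),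
      Finset.card_erase_of_mem (Finset.mem_univ _), Finset.card_univ]
  rw [h1, Finset.card_insert_of_notMem h2, h3]
  omega

theorem sum_dd (c : V → V → ZMod m) (hsym : ∀ x y, c x y = c y x) (u : V) :
    ∑ v ∈ univ.erase u, G.DD c u v ⊥ + ∑ z ∈ univ.erase u, (cla c z (c z u)).card =
      (Fintype.card V - 1) * (Fintype.card V - 1) := by
  have h1 : ∑ v ∈ univ.erase u, G.DD c u v ⊥ =
      ∑ z ∈ univ.erase u, ∑ v ∈ (univ.erase u).erase z, (if c u z = c v z then 0 else 1) := by
    simp only [dd_eq]
    refine Finset.sum_comm' ?_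
    intro v z
    simp only [Finset.mem_erase, Finset.mem_univ, and_true]
    constructor
    · rintro ⟨a, b, d⟩
      exact ⟨⟨fun e => b e.symm, a⟩, d⟩
    · rintro ⟨⟨a, b⟩, d⟩
      exact ⟨b, fun e => a e.symm, d⟩
  rw [h1, ← Finset.sum_add_distrib,
    Finset.sum_congr rfl (fun z hz => cla_eq c hsym (Finset.mem_erase.1 hz).1), Finset.sum_const,
    Finset.card_erase_of_mem (Finset.mem_univ _), Finset.card_univ, smul_eq_mul]

theorem sum_ge (c : V → V → ZMod m) (hsym : ∀ x y, c x y = c y x) {d : ℕ}
    (hd : ∀ x a, (cla c x a).card ≤ d) (hdn : d ≤ Fintype.card V - 1) (u : V) :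
    (Fintype.card V - 1) * (Fintype.card V - 1 - d) ≤ ∑ v ∈ univ.erase u, G.DD c u v ⊥ := by
  have h1 := sum_dd c hsym u
  have h2 : ∑ z ∈ univ.erase u, (cla c z (c z u)).card ≤ (Fintype.card V - 1) * d := by
    have h3 := Finset.sum_le_sum (s := univ.erase u) (fun z _ => hd z (c z u))
    rwa [Finset.sum_const, Finset.card_erase_of_mem (Finset.mem_univ _), Finset.card_univ,
      smul_eq_mul] at h3
  rw [Nat.mul_sub]
  omega

end O1
end ZS44129
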