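import Mathlib
import Pool.Agent.Work.MP_44129c_co.O1.Defs
import Pool.Agent.Work.MP_44129c_co.G.LemQ
import Pool.Agent.Work.MP_44129c_co.G.Partner
import Pool.Agent.Work.MP_44129c_co.G.Pair

/-!
# MP_44129c_co/O1, Wide (size M): for odd `m` every pair with `m < 2 DD` is good, or heavy in a special way

PROOF.  `Wd c 2 u v`: a subgroup `L ≠ ⊥` with `|L| ≤ 2` has order `2`, so `2 ∣ m` (Lagrange): excluded.  `hj` of `G.pair_thmP` (`κ = 2`): `|L| ≥ 3`; for
`m ≤ 3 s` clear; if `3 ∤ m` then `|L|` is odd and not divisible by `3`, so `|L| ≥ 5` and `5 s ≥ 3 s + 2 ≥ m`; if `3 ∣ m` then `m = 3 s` (because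
`3 s - 2 ≤ m ≤ 3 s + 2`).  So `GP c u v`, or `Hv c 2 u v P r` with `h = |P| ≥ 3`, `(Out + 2) h ≤ m`.  Let `j = m / h` (`h ∣ m`), `Out + 2 ≤ j`, and
`s + 1 ≤ h + Out` (`G.lemQ`, `s < m`), so `s + 3 ≤ h + j`, and `(h - 3)(j - 3) = m - 3 (h + j) + 9 ≤ m - 3 s ≤ 2` (over the integers).
`h` and `j ≥ 2` are odd, so `h, j ≥ 3`.
 * `3 ∤ m`: `h, j ≥ 5`: the product is `≥ 4`: contradiction (`gp_of_wide`).
 * `m = 3 s`: the product is `≤ 0`, so `h = 3` or `j = 3`.  `j = 3`: `3 |P| = m`.  `h = 3`: `Out + 2 ≤ s` (`(Out + 2) 3 ≤ 3 s`), so `|P| + Out ≤ s + 1`.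
-/

set_option autoImplicit false

namespace ZS44129
namespace O1

open Finset E X1

variable {V : Type} [Fintype V] [DecidableEq V] {m : ℕ} {c : V → V → ZMod m} {s : ℕ}

private theorem card_dvd [NeZero m] (L : AddSubgroup (ZMod m)) : Nat.card L ∣ m := by
  have h1 := AddSubgroup.card_addSubgroup_dvd_card L
  rwa [Nat.card_zmod] at h1

private theorem wide_split [NeZero m] (h : OS c s) (h3 : ¬ 3 ∣ m ∨ m = 3 * s) {u v : V} (huv : u ≠ v)
    (hD : m < 2 * G.DD c u v ⊥) : G.GP c u v ∨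
    ∃ (P : AddSubgroup (ZMod m)) (r : ZMod m) (j : ℕ), G.Hv c 2 u v P r ∧ m = Nat.card P * j ∧
      s + 3 ≤ Nat.card P + j ∧ 3 ≤ Nat.card P ∧ 3 ≤ j := by
  have hodd := h.odd
  have hs4 := h.s4
  have hm1 := h.m1
  have hm2 := h.m2
  have hW : G.Wd c 2 u v := by
    refine ⟨huv, hD, fun L hL hc => ?_⟩
    exfalso
    have h1 : 1 < Nat.card L := (AddSubgroup.one_lt_card_iff_ne_bot L).2 hL
    have h2 : Nat.card L = 2 := by omega
    apply hodd
    rw [← h2]
    exact card_dvd L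
  have hj : ∀ L : AddSubgroup (ZMod m), 2 < Nat.card L → m ≤ s * Nat.card L := by
    intro L hL
    have hdvd := card_dvd L
    rcases h3 with h3 | h3
    · have h5 : 5 ≤ Nat.card L := by
        by_contra hlt
        have h6 : Nat.card L = 3 ∨ Nat.card L = 4 := by omega
        rcases h6 with h6 | h6
        · rw [h6] at hdvd
          exact h3 hdvd
        · rw [h6] at hdvd
          exact hodd (Dvd.dvd.trans (by norm_num) hdvd)
      calc m ≤ s * 5 := by omega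
        _ ≤ s * Nat.card L := Nat.mul_le_mul_left s h5
    · calc m = s * 3 := by omega
        _ ≤ s * Nat.card L := Nat.mul_le_mul_left s hL
  rcases G.pair_thmP c h.zsf (Or.inl rfl) h.card hj hW with h1 | ⟨P, r, hP⟩
  · exact Or.inl h1
  · right
    have hq := G.lemQ c h.sym h.zsf h.card (by omega) hP
    have hPP := hP
    obtain ⟨-, hP2, -, hP4⟩ := hPP
    obtain ⟨j, hjm⟩ := card_dvd P
    have hpos : 0 < Nat.card P := by omega
    have h7 : G.Out c u v P r + 2 ≤ j := by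
      have h8 : Nat.card P * (G.Out c u v P r + 2) ≤ Nat.card P * j := by
        rw [← hjm, mul_comm]
        exact hP4
      exact Nat.le_of_mul_le_mul_left h8 hpos
    have hjodd : ¬ 2 ∣ j := fun h2 => hodd (hjm ▸ Dvd.dvd.mul_left h2 _)
    refine ⟨P, r, j, hP, hjm, by omega, by omega, by omega⟩

theorem gp_of_wide [NeZero m] (h : OS c s) (h3 : ¬ 3 ∣ m) {u v : V} (huv : u ≠ v)
    (hD : m < 2 * G.DD c u v ⊥) : G.GP c u v := by
  rcases wide_split h (Or.inl h3) huv hD with h1 | ⟨P, r, j, -, hjm, hsum, hP3, hj3⟩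
  · exact h1
  · exfalso
    have hodd := h.odd
    have hm2 := h.m2
    have hP2 : ¬ 2 ∣ Nat.card P := fun h2 => hodd (hjm ▸ Dvd.dvd.mul_right h2 _)
    have hj2 : ¬ 2 ∣ j := fun h2 => hodd (hjm ▸ Dvd.dvd.mul_left h2 _)
    have hP3' : ¬ 3 ∣ Nat.card P := fun h2 => h3 (hjm ▸ Dvd.dvd.mul_right h2 _)
    have hj3' : ¬ 3 ∣ j := fun h2 => h3 (hjm ▸ Dvd.dvd.mul_left h2 _)
    have hP5 : 5 ≤ Nat.card P := by omega
    have hj5 : 5 ≤ j := by omega
    obtain ⟨a, ha⟩ := Nat.exists_eq_add_of_le hP5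
    obtain ⟨b, hb⟩ := Nat.exists_eq_add_of_le hj5
    rw [ha, hb] at hjm hsum
    nlinarith

theorem gp_or_three [NeZero m] (h : OS c s) (h3 : m = 3 * s) {u v : V} (huv : u ≠ v)
    (hD : m < 2 * G.DD c u v ⊥) : G.GP c u v ∨
    (∃ (P : AddSubgroup (ZMod m)) (r : ZMod m), G.Hv c 2 u v P r ∧ 3 * Nat.card P = m) ∨
    (∃ (P : AddSubgroup (ZMod m)) (r : ZMod m), G.Hv c 2 u v P r ∧ Nat.card P = 3 ∧
      Nat.card P + G.Out c u v P r ≤ s + 1) := by
  rcases wide_split h (Or.inr h3) huv hD with h1 | ⟨P, r, j, hHv, hjm, hsum, hP3, hj3⟩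
  · exact Or.inl h1
  · right
    obtain ⟨a, ha⟩ := Nat.exists_eq_add_of_le hP3
    obtain ⟨b, hb⟩ := Nat.exists_eq_add_of_le hj3
    have hab : a * b = 0 := by
      rw [ha, hb] at hjm hsum
      nlinarith
    rcases Nat.mul_eq_zero.1 hab with h0 | h0
    · right
      have hP : Nat.card P = 3 := by omega
      refine ⟨P, r, hHv, hP, ?_⟩
      have h4 := hHv.2.2.2
      rw [hP] at h4 ⊢
      omega
    · left
      refine ⟨P, r, hHv, ?_⟩
      rw [hb, h0] at hjm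
      omega

end O1
end ZS44129
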