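import Mathlib
import Pool.Agent.Work.MP_44129c_co.O1.Defs
import Pool.Agent.Work.MP_44129c_co.W.Root
import Pool.Agent.Work.MP_44129c_co.W.Struct
import Pool.Agent.Work.MP_44129c_co.W.AperO
import Pool.Agent.Work.MP_44129c_co.W.AperU

/-!
# MP_44129c_co/O1, Root (size S-M): for odd `m` every bad root can be lifted

`e = |BB c w|`, `s ≤ e ≤ 2 s - 1`.
PROOF of `lift_of`.  `y` bad: `|X0 c w y| ≥ m - e`, choose `P0 ⊆ X0 c w y` with `m - e` elements and `J0 ⊆ (BB c w).erase y` with `s - 1` elements (`e - 1 ≥ s - 1`).  `root_lift` with `hap`;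
`m + 3 ≤ 2 (m - e + s)` because `2 e + 3 ≤ 4 s + 1 ≤ m + 2 s` (`3 s ≤ m + 2`, `s ≥ 4`), and `1 ≤ m - e` because `m ≥ 3 s - 2 ≥ 2 s`.
PROOF of `hroot_odd`.  `3 ∤ m`: `lift_of` with `aper_odd`.  `3 ∣ m`: `m = 3 s`.  `exists_aper3` gives one bad `y1` with an aperiodic cube, `root_lift` a lift `RL (g * c) …` there, `wstruct` (for the colouring `g * c`,
`ws_scale`) at least `s` vertices `b` of `(BB c w).erase y1` with `n b = 1` or (second alternative) `- n b = 1`; so `g * c w b = ± 1` (`RL.hb`) and `c w b` is a unit: `hu` of `aper3_after`.  Now `lift_of` with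
`aper3_after` for the given `y`.
-/

set_option autoImplicit false

namespace ZS44129
namespace O1

open Finset E X1 W

variable {V : Type} [Fintype V] [DecidableEq V] {m : ℕ} {c : V → V → ZMod m} {s : ℕ} {w : V}

theorem lift_of [NeZero m] (h : WS c s w) {y : V} (hy : Bad c w y)
    (hap : ∀ J0 P0 : Finset V, J0 ⊆ (BB c w).erase y → J0.card + 1 = s → P0 ⊆ X0 c w y →
      P0.card + (BB c w).card ≤ m → m + 3 ≤ 2 * (P0.card + s) → Aper (cube (dlt c w y) (J0 ∪ P0))) :
    ∃ (g : (ZMod m)ˣ) (z0 : ℤ) (n : V → ℤ),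
      RL (fun a b => (g : ZMod m) * c a b) s (m - (BB c w).card) w y z0 n := by
  obtain ⟨hyB, hX⟩ := hy
  have hs4 := h.s4
  have he1 := h.e1
  have he2 := h.e2
  have hm1 := h.m1
  have hY := Finset.card_erase_add_one hyB
  obtain ⟨P0, hP0, hP0c⟩ := Finset.exists_subset_card_eq
    (show m - (BB c w).card ≤ (X0 c w y).card by omega)
  obtain ⟨J0, hJ0, hJ0c⟩ := Finset.exists_subset_card_eq
    (show s - 1 ≤ ((BB c w).erase y).card by omega)
  have h1 := root_lift h.toWS0 hyB J0 P0 hJ0 (by omega) hP0 (by omega) (by omega) (by omega)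
    (hap J0 P0 hJ0 (by omega) hP0 (by omega) (by omega))
  rw [hP0c] at h1
  exact h1

private theorem root_units [NeZero m] (h : WS c s w) {y : V} {g : (ZMod m)ˣ} {z0 : ℤ} {n : V → ℤ}
    {μ : ℕ} (R : RL (fun a b => (g : ZMod m) * c a b) s μ w y z0 n) (k : ℤ)
    (hk : IsUnit (k : ZMod m))
    (h1 : s ≤ (((BB c w).erase y).filter (fun b => n b = k)).card) :
    s ≤ ((BB c w).filter (fun b => IsUnit (c w b))).card := by
  refine h1.trans (Finset.card_le_card fun b hb => ?_)
  obtain ⟨h2, h3⟩ := Finset.mem_filter.1 hb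
  refine Finset.mem_filter.2 ⟨Finset.mem_of_mem_erase h2, ?_⟩
  have hB := (ws_scale h g).2.2.1
  have h4 := R.hb b (by rw [hB]; exact h2)
  rw [h3] at h4
  rw [h4] at hk
  exact (Units.isUnit_units_mul g (c w b)).1 hk

theorem hroot_odd [NeZero m] (h : WS c s w) (hodd : ¬ 2 ∣ m) {y : V} (hy : Bad c w y) :
    ∃ (g : (ZMod m)ˣ) (z0 : ℤ) (n : V → ℤ),
      RL (fun a b => (g : ZMod m) * c a b) s (m - (BB c w).card) w y z0 n := by
  have hs4 := h.s4
  have he1 := h.e1
  have he2 := h.e2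
  have hm1 := h.m1
  have hm2 := h.m2
  by_cases h3 : 3 ∣ m
  · have hm : m = 3 * s := by omega
    obtain ⟨y1, hy1, J0, P0, hJ0, hJ0c, hP0, hP0c, hap⟩ := exists_aper3 h hodd hm
    obtain ⟨g, z0, n, R⟩ := root_lift h.toWS0 hy1.1 J0 P0 hJ0 hJ0c hP0 (by omega) (by omega) (by omega)
      hap
    have hB := (ws_scale h g).2.2.1
    have hu : s ≤ ((BB c w).filter (fun b => IsUnit (c w b))).card := by
      rcases wstruct (ws_scale h g).1.toWS0 R (by rw [hB]; exact hP0c) with P | P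
      · have h4 := P.ones
        rw [hB] at h4
        exact root_units h R 1 (by simp) h4
      · have h4 := P.ones
        rw [hB] at h4
        refine root_units h R (-1) (by simp) (h4.trans (Finset.card_le_card fun b hb => ?_))
        obtain ⟨h5, h6⟩ := Finset.mem_filter.1 hb
        have h6' : - n b = 1 := h6
        exact Finset.mem_filter.2 ⟨h5, by omega⟩
    exact lift_of h hy fun J0 P0 a1 a2 a3 a4 a5 =>
      aper3_after h.toWS0 hodd hm hu hy.1 J0 P0 a1 a2 a3 a4 a5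
  · exact lift_of h hy fun J0 P0 a1 a2 a3 a4 a5 =>
      aper_odd h.toWS0 hodd h3 hy.1 J0 P0 a1 a2 a3 a4 a5

end O1
end ZS44129
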