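import Mathlib
import Pool.Agent.Work.MP_44129c_co.O1.Root
import Pool.Agent.Work.MP_44129c_co.W.Concl
import Pool.Agent.Work.MP_44129c_co.W.NumEE

/-!
# MP_44129c_co/O1, Large (size S-M): for odd `m` there is no large class

PROOF of `cla_lt` (every class has less than `m` elements): `G.zsf_star` for the colouring `c' = c - a` (`zsf_affine` with `g = 1`, `β = a`): `m` vertices of the class have the sum `0`.
PROOF of `ws_of`.  `c' x y = c x y - a` is symmetric and `ZSF`; `AA c' u = cla c u a`, `|AA| + |BB| = m + s - 1`, so `|BB| = m + s - 1 - |cla c u a|`; `e1` by `cla_lt`.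
PROOF of `no_large`.  `ws_of`, `W.ws_false` with `hn = W.numE_of …` and `hroot_odd`.
-/

set_option autoImplicit false

namespace ZS44129
namespace O1

open Finset E X1 W

variable {V : Type} [Fintype V] [DecidableEq V] {m : ℕ} {c : V → V → ZMod m} {s : ℕ}

theorem cla_lt [NeZero m] (hz : ZSF m c) (u : V) (a : ZMod m) : (cla c u a).card < m := by
  by_contra hcon
  push Not at hcon
  obtain ⟨D, hD, hDc⟩ := Finset.exists_subset_card_eq hcon
  have hm : 0 < m := Nat.pos_of_ne_zero (NeZero.ne m)
  have hne : D.Nonempty := by rw [← Finset.card_pos]; omega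
  obtain ⟨v, hv⟩ := hne
  have hu : u ∉ D := fun h => (mem_cla.mp (hD h)).1 rfl
  have huv : u ≠ v := by rintro rfl; exact hu hv
  have h := hz u v huv (D.erase v) ∅ (Finset.disjoint_empty_right _)
    (fun h => hu (Finset.mem_of_mem_erase h)) (Finset.notMem_erase _ _) (Finset.notMem_empty _)
    (Finset.notMem_empty _) (by
      rw [Finset.card_erase_of_mem hv, Finset.card_empty]
      omega)
  apply h
  rw [Finset.sum_empty, add_zero, Finset.add_sum_erase D (fun x => c u x) hv,
    Finset.sum_congr rfl fun x hx => (mem_cla.mp (hD hx)).2, Finset.sum_const, hDc, nsmul_eq_mul,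
    ZMod.natCast_self, zero_mul]

theorem ws_of [NeZero m] (h : OS c s) {u : V} {a : ZMod m} (h1 : m ≤ (cla c u a).card + s)
    (h2 : ((m : ℤ) + s - 1 - (cla c u a).card) * (cla c u a).card < s * (m + s - 1)) :
    WS (fun x y => c x y - a) s u ∧ (BB (fun x y => c x y - a) u).card + (cla c u a).card + 1 = m + s := by
  have hA : AA (fun x y => c x y - a) u = cla c u a := by
    unfold AA cla
    apply Finset.filter_congr
    intro x _
    exact sub_eq_zero
  have hsum : (AA (fun x y => c x y - a) u).card + (BB (fun x y => c x y - a) u).card =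
      (univ.erase u : Finset V).card := by
    unfold AA BB
    exact Finset.card_filter_add_card_filter_not _
  rw [hA, Finset.card_erase_of_mem (mem_univ u), Finset.card_univ, h.card] at hsum
  have hlt := cla_lt h.zsf u a
  have hm : 0 < m := Nat.pos_of_ne_zero (NeZero.ne m)
  have key : (BB (fun x y => c x y - a) u).card + (cla c u a).card + 1 = m + s := by omega
  refine ⟨⟨?_, ?_, h.card, h.s4, h.m1, h.m2, ?_, ?_, ?_⟩, key⟩
  · intro x y
    simp only [h.sym x y]
  · have := zsf_affine c h.zsf 1 a
    simpa using this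
  · omega
  · omega
  · have e1 : ((BB (fun x y => c x y - a) u).card : ℤ) = m + s - 1 - (cla c u a).card := by
      have : ((BB (fun x y => c x y - a) u).card : ℤ) + (cla c u a).card + 1 = m + s := by
        exact_mod_cast key
      linarith
    rw [e1]
    have e2 : ((m : ℤ) + s - 1 - (m + s - 1 - (cla c u a).card)) = (cla c u a).card := by ring
    rw [e2]
    exact h2

theorem no_large [NeZero m] (h : OS c s) (h5 : m ≤ 3 * s ∨ 5 ≤ s) {u : V} {a : ZMod m}
    (h1 : m ≤ (cla c u a).card + s)
    (h2 : ((m : ℤ) + s - 1 - (cla c u a).card) * (cla c u a).card < s * (m + s - 1))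
    (h17 : ¬ (m = 17 ∧ s = 5 ∧ (cla c u a).card = 13)) : False := by
  obtain ⟨hW, hk⟩ := ws_of h h1 h2
  have hodd := h.odd
  refine ws_false hW (numE_of h.s4 h.m1 h.m2 h5 (Or.inl ?_)) h5 (Or.inl ?_) ?_ ?_
  · rintro rfl
    exact hodd (by norm_num)
  · rintro rfl
    exact hodd (by norm_num)
  · rintro ⟨a1, a2, a3⟩
    exact h17 ⟨a1, a2, by omega⟩
  · intro y hy
    exact hroot_odd hW hodd hy

end O1
end ZS44129
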