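import Mathlib
import Pool.Agent.Work.MP_44129c_co.O1.GpDD
import Pool.Agent.Work.MP_44129c_co.O1.Wide
import Pool.Agent.Work.MP_44129c_co.O1.Tight
import Pool.Agent.Work.MP_44129c_co.O1.Sum

/-!
# MP_44129c_co/O1, PartA (size M): for `m ≤ 3 s` there is a class with at least `m - s` elements

PROOF.  Suppose all classes have at most `d = m - s - 1` elements; `n = |V| - 1 = m + s - 1`, `n - d = 2 s`.  Fix a vertex `u` (`V` is nonempty).
`sum_ge`: `∑_{v ≠ u} DD c u v ⊥ ≥ 2 s n` (`n` summands).
(1) A pair with `GP c u v` has `DD c u v ⊥ < 2 s`: by `gp_dd` `DD + s + 1 ≤ m ≤ 3 s`, or `DD + 2 s ≤ 2 d = 2 m - 2 s - 2 ≤ 4 s - 2`.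
(2) `3 ∤ m`: some `v ≠ u` has `DD c u v ⊥ ≥ 2 s` (average), `4 s > m`, so `GP` (`gp_of_wide`): contradiction to (1).
(3) `3 ∣ m`: `m = 3 s`, `n = 4 s - 1`.  Let `F` be the set of the `v ≠ u` with `m < 2 DD` which are not `GP`.  For `v ∈ F` `gp_or_three` gives `Hv c 2 u v P r` with `3 |P| = m`, or (third
alternative) a class at `u` with `≥ m - 1 > d` elements (`tight3_cla`; `s ≥ 4`), which is excluded.  So `|F| ≤ 2` (`G.partner3`, `|V| ≥ 6`).
If all `v ∉ F` have `DD ≤ 2 s - 1`: as always `DD c u v ⊥ ≤ |XX u v| = n - 1`, with `f = |F| ≤ 2`: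
`2 s n ≤ f (n - 1) + (n - f)(2 s - 1)`, i.e. `n + 2 s f ≤ f n`; `n = 4 s - 1`: false for `f = 0`, for `f = 1`, and for `f = 2` (`8 s - 1 ≤ 8 s - 2`).
So some `v ∉ F` has `DD ≥ 2 s`, `m < 4 s ≤ 2 DD`, so it is `GP` (`v ∉ F`): contradiction to (1).
-/

set_option autoImplicit false

namespace ZS44129
namespace O1

open Finset E X1

variable {V : Type} [Fintype V] [DecidableEq V] {m : ℕ} {c : V → V → ZMod m} {s : ℕ}

theorem partA [NeZero m] (h : OS c s) (hm : m ≤ 3 * s) :
    ∃ (u : V) (a : ZMod m), m ≤ (cla c u a).card + s := by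
  classical
  by_contra hcon
  push Not at hcon
  have hs4 := h.s4
  have hm1 := h.m1
  have hV := h.card
  have hd : ∀ x a, (cla c x a).card ≤ m - s - 1 := by
    intro x a
    have := hcon x a
    omega
  have hVpos : 0 < Fintype.card V := by omega
  obtain ⟨u⟩ : Nonempty V := Fintype.card_pos_iff.1 hVpos
  have hsum := sum_ge c h.sym hd (by omega) u
  have e1 : Fintype.card V - 1 = m + s - 1 := by omega
  have e2 : m + s - 1 - (m - s - 1) = 2 * s := by omega
  rw [e1, e2] at hsum
  have hgp : ∀ v, G.GP c u v → G.DD c u v ⊥ < 2 * s := by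
    intro v hv
    rcases gp_dd h.zsf (by omega) (by omega) h.card hv (hd u) (hd v) with h1 | h1
    · omega
    · omega
  have hce : (univ.erase u).card = m + s - 1 := by
    rw [card_erase_of_mem (mem_univ u), card_univ, e1]
  by_cases h3 : 3 ∣ m
  · -- `m = 3 s`
    have hms : m = 3 * s := by omega
    set F := (univ.erase u).filter (fun v => m < 2 * G.DD c u v ⊥ ∧ ¬ G.GP c u v) with hF
    have hF2 : F.card ≤ 2 := by
      apply G.partner3 c (κ := 2) (by omega) u F
      intro w hw
      rw [hF, mem_filter] at hw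
      have huw : u ≠ w := (mem_erase.1 hw.1).1.symm
      rcases gp_or_three h hms huw hw.2.1 with h1 | h1 | ⟨P, r, h1, h2, h4⟩
      · exact absurd h1 hw.2.2
      · exact h1
      · obtain ⟨a, ha⟩ := tight3_cla c h.sym h.zsf h.card (by omega) (by omega) h1 h2 h4
        have := hcon u a
        omega
    have hle : ∀ v ∈ univ.erase u, G.DD c u v ⊥ ≤
        if v ∈ F then m + s - 1 - 1 else 2 * s - 1 := by
      intro v hv
      have huv : u ≠ v := (mem_erase.1 hv).1.symm
      split_ifs with hvF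
      · have h5 : G.DD c u v ⊥ ≤ (G.XX u v).card := by
          unfold G.DD G.Dn
          exact card_filter_le _ _
        have h6 := G.card_XX huv
        omega
      · by_contra hlt
        push Not at hlt
        have h5 : 2 * s ≤ G.DD c u v ⊥ := by omega
        have h6 : G.GP c u v := by
          by_contra hg
          apply hvF
          rw [hF, mem_filter]
          exact ⟨hv, by omega, hg⟩
        have := hgp v h6
        omega
    have hsum2 := hsum.trans (sum_le_sum hle)
    have hFs : F ⊆ univ.erase u := filter_subset _ _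
    have h7 : ∑ v ∈ univ.erase u, (if v ∈ F then m + s - 1 - 1 else 2 * s - 1) =
        F.card * (m + s - 1 - 1) + (m + s - 1 - F.card) * (2 * s - 1) := by
      rw [← sum_sdiff hFs]
      have h8 : ∑ v ∈ (univ.erase u) \ F, (if v ∈ F then m + s - 1 - 1 else 2 * s - 1) =
          ∑ _v ∈ (univ.erase u) \ F, (2 * s - 1) :=
        sum_congr rfl fun v hv => if_neg (mem_sdiff.1 hv).2
      have h9 : ∑ v ∈ F, (if v ∈ F then m + s - 1 - 1 else 2 * s - 1) =
          ∑ _v ∈ F, (m + s - 1 - 1) := sum_congr rfl fun v hv => if_pos hv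
      rw [h8, h9, sum_const, sum_const, smul_eq_mul, smul_eq_mul, card_sdiff_of_subset hFs, hce]
      ring
    rw [h7] at hsum2
    obtain ⟨t, rfl⟩ : ∃ t, s = t + 4 := ⟨s - 4, by omega⟩
    have a1 : m + (t + 4) - 1 = 4 * t + 15 := by omega
    rw [a1] at hsum2
    have a2 : 2 * (t + 4) - 1 = 2 * t + 7 := by omega
    rw [a2] at hsum2
    have a3 : 4 * t + 15 - 1 = 4 * t + 14 := by omega
    rw [a3] at hsum2
    generalize F.card = f at hF2 hsum2
    interval_cases f
    · simp only [zero_mul, zero_add, Nat.sub_zero] at hsum2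
      nlinarith
    · rw [a3] at hsum2
      nlinarith
    · have a4 : 4 * t + 15 - 2 = 4 * t + 13 := by omega
      rw [a4] at hsum2
      nlinarith
  · -- `3 ∤ m`
    have hex : ∃ v ∈ univ.erase u, 2 * s ≤ G.DD c u v ⊥ := by
      by_contra hno
      push Not at hno
      have hle : ∀ v ∈ univ.erase u, G.DD c u v ⊥ ≤ 2 * s - 1 := by
        intro v hv
        have := hno v hv
        omega
      have h1 := sum_le_card_nsmul _ _ _ hle
      rw [hce, smul_eq_mul] at h1
      have h2 := hsum.trans h1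
      have h3' : (m + s - 1) * (2 * s - 1) < (m + s - 1) * (2 * s) :=
        Nat.mul_lt_mul_of_pos_left (by omega) (by omega)
      omega
    obtain ⟨v, hv, hv2⟩ := hex
    have huv : u ≠ v := (mem_erase.1 hv).1.symm
    have := hgp v (gp_of_wide h h3 huv (by omega))
    omega

end O1
end ZS44129
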