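import Mathlib
import Pool.Agent.Work.MP_44129c_co.O1.GpDD
import Pool.Agent.Work.MP_44129c_co.O1.Wide
import Pool.Agent.Work.MP_44129c_co.O1.Sum
import Pool.Agent.Work.MP_44129c_co.N.NearMF

/-!
# MP_44129c_co/O1, PartZ (size M): `m = 3 s + 1`, all classes have at most `2 s` elements

`n = |V| - 1 = m + s - 1 = 4 s`.
PROOF of `partZ_dd`.  `DD c u v ⊥ ≤ 2 s` for every pair `u ≠ v`: if `m < 2 DD` then `GP` (`gp_of_wide`; `3 ∤ m`), and `gp_dd` with `d = 2 s` gives `DD + s + 1 ≤ m = 3 s + 1` or `DD + 2 s ≤ 4 s`;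
otherwise `2 DD ≤ m = 3 s + 1 ≤ 4 s + 1`.  By `sum_dd` `∑_{v ≠ u} DD c u v ⊥ + ∑_{z ≠ u} |cla c z (c z u)| = 16 s²`; both sums are `≤ 4 s · 2 s`, so all summands are equal to `2 s`.
PROOF of `partZ_two`.  At a vertex `x` every colour which occurs has exactly `2 s` elements (`partZ_dd`, with `u` one of them), and there are `4 s` others: exactly two colours occur at `x`
(choose `y ≠ x` with colour `b`, the class has `2 s < 4 s` elements, so a `z` with colour `a ≠ b`; the two classes are everything).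
CLAIM: if `x ≠ y`, `c x y = b` and `a` is the other colour of `x`, `a'` the other colour of `y`, then `a = a'`.  Suppose `a ≠ a'`.  The positions `z ≠ x, y` (`4 s - 1` of them) with `c x z = c y z` are `4 s - 1 - 2 s = 2 s - 1`, and they have
`c x z = b` (`c x z ∈ {a, b}`, `c y z ∈ {a', b}`); `x` has exactly `2 s - 1` vertices `z ≠ y` of colour `b`, and so has `y` (without `x`).  So for `z ≠ x, y`: `c x z = b ↔ c y z = b`.  (*)
Let `Z` be the set of the `2 s` vertices `z ≠ x, y` with `c x z = a`, and so `c y z = a'` (by (*)).  Every `z ∈ Z` has the colours `a` (to `x`) and `a'` (to `y`), `a ≠ a'`, so these are its two colours.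
Apply (*) to the pair `x, z` (`c x z = a`, other colours `b` and `a'`, `b ≠ a'`): for `w ≠ x, z`: `c x w = a ↔ c z w = a`; so for `w ∈ Z`, `w ≠ z`: `c z w = a`.  In the same way with `y`
(`c y z = a'`, other colours `b` and `a`): `c z w = a'`.  Contradiction (`|Z| = 2 s ≥ 2`).
So any two vertices have the same two colours: fix `x` and its colours `a`, `b`; then `c p q ∈ {a, b}` for all `p ≠ q`.
PROOF of `partZ`: `N.two_val_mf`.
-/

set_option autoImplicit false

namespace ZS44129
namespace O1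

open Finset E X1

variable {V : Type} [Fintype V] [DecidableEq V] {m : ℕ} {c : V → V → ZMod m} {s : ℕ}

private theorem pz_card (h : OS c s) (hm : m = 3 * s + 1) : Fintype.card V = 4 * s + 1 := by
  rw [h.card]
  omega

private theorem pz_erase (h : OS c s) (hm : m = 3 * s + 1) (x : V) :
    (univ.erase x).card = 4 * s := by
  rw [card_erase_of_mem (mem_univ x), card_univ, pz_card h hm]
  omega

private theorem pz_le [NeZero m] (h : OS c s) (hm : m = 3 * s + 1)
    (hcl : ∀ x a, (cla c x a).card ≤ 2 * s) {u v : V} (huv : u ≠ v) : G.DD c u v ⊥ ≤ 2 * s := by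
  have hs := h.s4
  by_cases hD : m < 2 * G.DD c u v ⊥
  · have h3 : ¬ 3 ∣ m := by omega
    have hg := gp_of_wide h h3 huv hD
    rcases gp_dd h.zsf (by omega) (by omega) h.card hg (fun a => hcl u a) (fun a => hcl v a) with
      h1 | h1 <;> omega
  · omega

theorem partZ_dd [NeZero m] (h : OS c s) (hm : m = 3 * s + 1) (hcl : ∀ x a, (cla c x a).card ≤ 2 * s)
    {u v : V} (huv : u ≠ v) : G.DD c u v ⊥ = 2 * s ∧ (cla c v (c v u)).card = 2 * s := by
  have hsum := sum_dd c h.sym u
  rw [pz_card h hm, Nat.add_sub_cancel] at hsum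
  have hA : ∀ z ∈ univ.erase u, G.DD c u z ⊥ ≤ 2 * s := fun z hz =>
    pz_le h hm hcl (mem_erase.1 hz).1.symm
  have hB : ∀ z ∈ univ.erase u, (cla c z (c z u)).card ≤ 2 * s := fun z _ => hcl z _
  have h1 : ∑ _z ∈ univ.erase u, 2 * s = 4 * s * (2 * s) := by
    rw [sum_const, pz_erase h hm, smul_eq_mul]
  have h2 := sum_le_sum hA
  have h3 := sum_le_sum hB
  rw [h1] at h2 h3
  have h4 : 4 * s * (4 * s) = 4 * s * (2 * s) + 4 * s * (2 * s) := by ring
  have e1 : ∑ z ∈ univ.erase u, G.DD c u z ⊥ = ∑ _z ∈ univ.erase u, 2 * s := by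
    rw [h1]; omega
  have e2 : ∑ z ∈ univ.erase u, (cla c z (c z u)).card = ∑ _z ∈ univ.erase u, 2 * s := by
    rw [h1]; omega
  have hv : v ∈ univ.erase u := mem_erase.2 ⟨huv.symm, mem_univ v⟩
  exact ⟨(sum_eq_sum_iff_of_le hA).1 e1 v hv, (sum_eq_sum_iff_of_le hB).1 e2 v hv⟩

private theorem pz_cls [NeZero m] (h : OS c s) (hm : m = 3 * s + 1)
    (hcl : ∀ x a, (cla c x a).card ≤ 2 * s) {x u : V} (hux : u ≠ x) :
    (cla c x (c x u)).card = 2 * s := (partZ_dd h hm hcl hux).2

private theorem pz_two [NeZero m] (h : OS c s) (hm : m = 3 * s + 1)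
    (hcl : ∀ x a, (cla c x a).card ≤ 2 * s) {x y z : V} (hy : y ≠ x) (hz : z ≠ x)
    (hne : c x y ≠ c x z) {w : V} (hw : w ≠ x) : c x w = c x y ∨ c x w = c x z := by
  have hd : Disjoint (cla c x (c x y)) (cla c x (c x z)) := by
    rw [Finset.disjoint_left]
    intro v h1 h2
    exact hne ((mem_cla.1 h1).2.symm.trans (mem_cla.1 h2).2)
  have hsub : cla c x (c x y) ∪ cla c x (c x z) ⊆ univ.erase x := by
    intro v hv
    rcases mem_union.1 hv with h1 | h1
    · exact mem_erase.2 ⟨(mem_cla.1 h1).1, mem_univ v⟩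
    · exact mem_erase.2 ⟨(mem_cla.1 h1).1, mem_univ v⟩
  have heq : cla c x (c x y) ∪ cla c x (c x z) = univ.erase x := by
    apply eq_of_subset_of_card_le hsub
    rw [card_union_of_disjoint hd, pz_cls h hm hcl hy, pz_cls h hm hcl hz, pz_erase h hm x]
    omega
  have hw' : w ∈ cla c x (c x y) ∪ cla c x (c x z) := by
    rw [heq]
    exact mem_erase.2 ⟨hw, mem_univ w⟩
  rcases mem_union.1 hw' with h1 | h1
  · exact Or.inl (mem_cla.1 h1).2
  · exact Or.inr (mem_cla.1 h1).2

private theorem pz_ex [NeZero m] (h : OS c s) (hm : m = 3 * s + 1)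
    (hcl : ∀ x a, (cla c x a).card ≤ 2 * s) {x y : V} (hy : y ≠ x) :
    ∃ z, z ≠ x ∧ c x z ≠ c x y := by
  have hs := h.s4
  by_contra hcon
  push Not at hcon
  have h1 : univ.erase x ⊆ cla c x (c x y) := by
    intro z hz
    have hz' := (mem_erase.1 hz).1
    exact mem_cla.2 ⟨hz', hcon z hz'⟩
  have h2 := card_le_card h1
  rw [pz_erase h hm x, pz_cls h hm hcl hy] at h2
  omega

private theorem pz_star [NeZero m] (h : OS c s) (hm : m = 3 * s + 1)
    (hcl : ∀ x a, (cla c x a).card ≤ 2 * s) {x y p q : V} (hxy : x ≠ y) (hp : p ≠ x) (hq : q ≠ y)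
    (hpb : c x p ≠ c x y) (hqb : c y q ≠ c x y) (hpq : c x p ≠ c y q) {z : V} (hzx : z ≠ x)
    (hzy : z ≠ y) : c x z = c x y ↔ c y z = c x y := by
  classical
  have hyx : c y x = c x y := h.sym y x
  set E1 := (G.XX x y).filter (fun z => c x z = c y z) with hE1
  set Fx := (G.XX x y).filter (fun z => c x z = c x y) with hFx
  set Fy := (G.XX x y).filter (fun z => c y z = c x y) with hFy
  have hXX : (G.XX x y).card + 2 = 4 * s + 1 := by
    rw [G.card_XX hxy, pz_card h hm]
  have hE : E1.card = 2 * s - 1 := by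
    have h1 := (partZ_dd h hm hcl hxy).1
    have h2 : G.DD c x y ⊥ = ((G.XX x y).filter (fun z => ¬ c x z = c y z)).card := by
      unfold G.DD G.Dn
      apply congrArg
      apply Finset.filter_congr
      intro z _
      rw [AddSubgroup.mem_bot, sub_eq_zero]
    have h3 := card_filter_add_card_filter_not (s := G.XX x y) (fun z => c x z = c y z)
    rw [← h2, h1] at h3
    have h4 : E1.card + 2 * s = (G.XX x y).card := h3
    omega
  have hFxc : Fx.card = 2 * s - 1 := by
    have h1 : Fx = (cla c x (c x y)).erase y := by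
      ext w
      rw [hFx, mem_filter, G.mem_XX, mem_erase, mem_cla]
      tauto
    rw [h1, card_erase_of_mem (mem_cla.2 ⟨hxy.symm, rfl⟩), pz_cls h hm hcl hxy.symm]
  have hFyc : Fy.card = 2 * s - 1 := by
    have h1 : Fy = (cla c y (c y x)).erase x := by
      ext w
      rw [hFy, mem_filter, G.mem_XX, mem_erase, mem_cla, hyx]
      tauto
    rw [h1, card_erase_of_mem (mem_cla.2 ⟨hxy, rfl⟩), pz_cls h hm hcl hxy]
  have key : ∀ w ∈ E1, c x w = c x y := by
    intro w hw
    obtain ⟨hw1, hw2⟩ := mem_filter.1 hw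
    obtain ⟨hw3, hw4⟩ := G.mem_XX.1 hw1
    rcases pz_two h hm hcl hxy.symm hp (Ne.symm hpb) hw3 with h1 | h1
    · exact h1
    · exfalso
      have h2 := pz_two h hm hcl hxy hq (by rw [hyx]; exact Ne.symm hqb) hw4
      rw [← hw2, h1, hyx] at h2
      rcases h2 with h2 | h2
      · exact hpb h2
      · exact hpq h2
  have e1 : E1 = Fx := by
    apply eq_of_subset_of_card_le
    · intro w hw
      exact mem_filter.2 ⟨(mem_filter.1 hw).1, key w hw⟩
    · rw [hE, hFxc]
  have e2 : E1 = Fy := by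
    apply eq_of_subset_of_card_le
    · intro w hw
      have h1 := (mem_filter.1 hw).2
      exact mem_filter.2 ⟨(mem_filter.1 hw).1, h1.symm.trans (key w hw)⟩
    · rw [hE, hFyc]
  have hz : z ∈ G.XX x y := G.mem_XX.2 ⟨hzx, hzy⟩
  constructor
  · intro h1
    have h2 : z ∈ Fy := by
      rw [← e2, e1]
      exact mem_filter.2 ⟨hz, h1⟩
    exact (mem_filter.1 h2).2
  · intro h1
    have h2 : z ∈ Fx := by
      rw [← e1, e2]
      exact mem_filter.2 ⟨hz, h1⟩
    exact (mem_filter.1 h2).2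

private theorem pz_claim [NeZero m] (h : OS c s) (hm : m = 3 * s + 1)
    (hcl : ∀ x a, (cla c x a).card ≤ 2 * s) {x y p q : V} (hxy : x ≠ y) (hp : p ≠ x) (hq : q ≠ y)
    (hpb : c x p ≠ c x y) (hqb : c y q ≠ c x y) : c x p = c y q := by
  by_contra hpq
  have hs := h.s4
  have hyx : c y x = c x y := h.sym y x
  have hstar : ∀ z, z ≠ x → z ≠ y → (c x z = c x y ↔ c y z = c x y) := fun z hzx hzy =>
    pz_star h hm hcl hxy hp hq hpb hqb hpq hzx hzy
  have hZc : (cla c x (c x p)).card = 2 * s := pz_cls h hm hcl hp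
  obtain ⟨z, hz, w, hw, hzw⟩ := one_lt_card.1 (show 1 < (cla c x (c x p)).card by omega)
  have hprop : ∀ v ∈ cla c x (c x p), v ≠ x ∧ v ≠ y ∧ c x v = c x p ∧ c y v = c y q := by
    intro v hv
    obtain ⟨h1, h2⟩ := mem_cla.1 hv
    have h3 : v ≠ y := by
      rintro rfl
      exact hpb h2.symm
    refine ⟨h1, h3, h2, ?_⟩
    have h4 : c y v ≠ c x y := by
      intro h5
      exact hpb (h2.symm.trans ((hstar v h1 h3).2 h5))
    rcases pz_two h hm hcl hxy hq (by rw [hyx]; exact Ne.symm hqb) h3 with h5 | h5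
    · rw [hyx] at h5
      exact absurd h5 h4
    · exact h5
  obtain ⟨z1, z2, z3, z4⟩ := hprop z hz
  obtain ⟨w1, w2, w3, w4⟩ := hprop w hw
  have hzx : c z x = c x p := (h.sym z x).trans z3
  have hzy : c z y = c y q := (h.sym z y).trans z4
  -- the pair `x, z`
  have s1 := pz_star h hm hcl (x := x) (y := z) (p := y) (q := y) z1.symm hxy.symm z2.symm
    (by rw [z3]; exact Ne.symm hpb) (by rw [hzy, z3]; exact Ne.symm hpq)
    (by rw [hzy]; exact Ne.symm hqb) w1 hzw.symm
  rw [z3, w3] at s1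
  have r1 : c z w = c x p := s1.1 rfl
  -- the pair `y, z`
  have s2 := pz_star h hm hcl (x := y) (y := z) (p := x) (q := x) z2.symm hxy z1.symm
    (by rw [z4, hyx]; exact Ne.symm hqb) (by rw [hzx, z4]; exact hpq)
    (by rw [hzx, hyx]; exact Ne.symm hpb) w2 hzw.symm
  rw [z4, w4] at s2
  have r2 : c z w = c y q := s2.1 rfl
  exact hpq (r1.symm.trans r2)

theorem partZ_two [NeZero m] (h : OS c s) (hm : m = 3 * s + 1) (hcl : ∀ x a, (cla c x a).card ≤ 2 * s) :
    ∃ a a' : ZMod m, ∀ x y, x ≠ y → c x y = a ∨ c x y = a' := by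
  have hs := h.s4
  have hc := pz_card h hm
  obtain ⟨x, y, hxy⟩ := Fintype.one_lt_card_iff.1 (show 1 < Fintype.card V by omega)
  obtain ⟨z, hz, hzb⟩ := pz_ex h hm hcl hxy.symm
  refine ⟨c x y, c x z, fun p q hpq => ?_⟩
  by_cases hpx : p = x
  · subst hpx
    exact pz_two h hm hcl hxy.symm hz (Ne.symm hzb) hpq.symm
  · obtain ⟨r, hr, hrb⟩ := pz_ex h hm hcl (x := p) (y := x) (Ne.symm hpx)
    have hsx : c p x = c x p := h.sym p x
    have h2 := pz_two h hm hcl (x := p) (y := x) (z := r) (Ne.symm hpx) hr (Ne.symm hrb) hpq.symm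
    rw [hsx] at h2 hrb
    rcases pz_two h hm hcl hxy.symm hz (Ne.symm hzb) hpx with h1 | h1
    · have h3 : c x z = c p r := pz_claim h hm hcl (x := x) (y := p) (Ne.symm hpx) hz hr
        (by rw [h1]; exact hzb) hrb
      rw [h1, ← h3] at h2
      exact h2
    · have h3 : c x y = c p r := pz_claim h hm hcl (x := x) (y := p) (Ne.symm hpx) hxy.symm hr
        (by rw [h1]; exact Ne.symm hzb) hrb
      rw [h1, ← h3] at h2
      exact h2.symm

theorem partZ [NeZero m] (h : OS c s) (hm : m = 3 * s + 1) (hcl : ∀ x a, (cla c x a).card ≤ 2 * s) :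
    ∃ b : V → V → Bool, (∀ x y, b x y = b y x) ∧ MF m b := by
  obtain ⟨a, a', h1⟩ := partZ_two h hm hcl
  exact N.two_val_mf h.sym h.zsf a a' h1

end O1
end ZS44129
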