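import Mathlib
import Pool.Agent.Work.MP_44129c_co.FR.Main

/-!
# MP_44129c_co/O1, S17 (size M-L): the far root for `m = 17`, `s = 5`, `ii = 1` (exact values)

Notation: `h = |HH|`, `l = |LL|`, `neg = |NG|`, `x = exL`, `X = xH`, `b = bb`, `D = dd c u y`.  Facts (FR/Basic): `h + l = 21`, `h + neg = 8` (`ii = 1`), `x + X ≤ 2` (`ex_le`), `neg ≤ x`, `x = 0` if `neg = 0`,
`lo = h - 4 - x ≥ 1`, `ap = 17 - h - X - b ≥ 1`, `|Hp| = h - 1`.  If `b ≤ 5 + x + X` use `nohole`.  So `b ≥ 6 + x + X`: `rho ≥ 1`, `rho + ap = 2 + tau`, `tau = 2 - x + neg - 2 X ≥ 0`.  The cases (`omega`):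
 `neg = 0`: `h = 8, l = 13, x = 0, lo = 4`:  `(X, b, ap) = (1, 7, 1), (0, 6, 3), (0, 7, 2), (0, 8, 1)`.
 `neg = 1`: `h = 7, l = 14`, `x = 1, lo = 2`: `(X, b, ap) = (1, 8, 1), (0, 7, 3), (0, 8, 2), (0, 9, 1)`;  `x = 2, lo = 1`: `(0, 8, 2), (0, 9, 1)`.    (`neg = 2`: `h = 6`, `lo ≤ 0`: impossible.)
By `win` (FR/Win) every `(x', w) ∈ LL × Hp` is normal (`D + 1 ≤ lo`) or abnormal: `lo + 5 + x + X ≤ D ≤ lo + b - 1`.  `cnt` (FR/Cnt): `l (h - 1) ≤ l (lo - 1) + (h - 1)(ap - 1) + #abnormal`.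
(A) For every `x' ∈ LL`: at most `2` vertices `w ∈ Hp` are abnormal with `D ≥ 10`.  PROOF.  If `lo + b - 1 ≤ 9` there is none.  The other cases are `(X, b) = (0, 7)`, `(0, 8)` with `neg = 0` (`lo + b = 11, 12`, `l = 13`) and
 `x = 1, X = 0, b = 9` (`lo + b = 11`, `l = 14`); there `D ∈ {10, 11}` (`D ≤ 10` if `lo + b = 11`).  Three such `w`: `W`, `∑_W D ∈ [30, 33]`.
 `l = 13`: `|W| + l + 1 = 17`: `f1` (FR/Fam) with `t w = 1 - D` and `τ = - 17`, i.e. `lo + b - ∑_W D ≤ - 17 ≤ lo + b - ∑_W D + 4 + …`: for `lo + b = 11`: `- 19 ≤ - 17 ≤ - 15`; for `lo + b = 12`: `12 - [30, 33] ≤ - 18 ≤ -17` and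
 `- 17 ≤ 12 - 33 + 4 = - 17`.  (`exL + y x' ≥ 0` by `e_le`, `xH - ∑_W (y w - 1) ≥ 0` by `e_sum`.)  `17 ∣ - 17`: contradiction.
 `l = 14`: `|W| + l = 17`, `xH + 3 ≤ s`: `f1'` with `τ = - 17`: `11 - 30 + 1 = - 18 ≤ - 17 ≤ 11 - 30 + 4`.
(B) For every `w ∈ Hp`: at most `2 ap - 1` vertices `x' ∈ LL` are abnormal with `D ≤ 9` (`ww`, FR/WW: `2 D ≤ m + 1 = 18`; `tau ≤ 2 ≤ s - 2`).
(C) If `neg = 0`, `X = 0`, `b = 7` (`ap = 2`, abnormal `D ∈ {9, 10}`): at most `2` vertices `x' ∈ LL` with `D = 9` for every `w ∈ Hp`.  PROOF.  Three of them, `B`: `∑_B t = 3 (1 - 9) = - 24`; `g0` (FR/FamG) with `τ = - 17`: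
 `17 - 2 - 24 - 8 = - 17` is the upper bound `h2` (with equality), and the lower bound is smaller (`s - 2 = 3`, `exL + ∑_B y ≥ 0` by `e_sum'`, `xH - (y w - 1) ≥ 0` by `e_le'`); `|B| + h = 11 ≤ 17`.
So (counting the abnormal pairs with `D ≥ 10` by `x'`, the others by `w`; copy `card_prod_fst`, `card_prod_snd` from FR/Main), `K := l (lo - 1) + (h - 1)(ap - 1)`:
 `neg = 0` (`l (h - 1) = 91`, `l (lo - 1) = 39`): `(1, 7, 1)`: no abnormal `D ≥ 10` (`lo + b - 1 = 10`: use (A) only if you like): `39 + 0 + 26 + 7 = 72`; `(0, 6, 3)`: `lo + b - 1 = 9`, no `D ≥ 10`: `39 + 14 + 35 = 88`;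
  `(0, 7, 2)`: `39 + 7 + 26 + 14 = 86` (by (A), (C)); `(0, 8, 1)`: `39 + 0 + 26 + 7 = 72`.  All `< 91`.
 `neg = 1` (`l (h - 1) = 84`): `x = 1` (`l (lo - 1) = 14`): `(1, 8, 1)`: `14 + 0 + 6 = 20` (`lo + b - 1 = 9`); `(0, 7, 3)`: `14 + 12 + 30 = 56` (`lo + b - 1 = 8`); `(0, 8, 2)`: `14 + 6 + 18 = 38` (`9`);
  `(0, 9, 1)`: `14 + 0 + 28 + 6 = 48`.  `x = 2` (`lo = 1`): `(0, 8, 2)`: `0 + 6 + 18 = 24` (`8`); `(0, 9, 1)`: `0 + 0 + 6 = 6` (`9`).  All `< 84`.
REMARK on `(1, 7, 1)`, `neg = 0`: abnormal means `lo + 5 + x + X = 10 ≤ D ≤ lo + b - 1 = 10`; for (A) here: three `w` with `D = 10`: `f1`, `lo + b = 11` as above.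
-/

set_option autoImplicit false

namespace ZS44129
namespace O1

open Finset E FR

variable {V : Type} [Fintype V] [DecidableEq V] {m : ℕ} {c : V → V → ZMod m} {s : ℕ} {u y0 : V} {y : V → ℤ}

/-- counting the pairs of a product by the first coordinate -/
private theorem card_prod_fst {A B : Type} (S : Finset A) (T : Finset B) (P : A → B → Prop)
    [∀ a b, Decidable (P a b)] (k : ℤ) (h : ∀ a ∈ S, ((T.filter (fun b => P a b)).card : ℤ) ≤ k) :
    (((S ×ˢ T).filter (fun p => P p.1 p.2)).card : ℤ) ≤ S.card * k := by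
  have h1 : ((S ×ˢ T).filter (fun p => P p.1 p.2)).card = ∑ a ∈ S, (T.filter (fun b => P a b)).card := by
    rw [Finset.card_filter, Finset.sum_product]
    apply Finset.sum_congr rfl
    intro a _
    rw [Finset.card_filter]
  rw [h1]
  push_cast
  calc (∑ a ∈ S, ((T.filter (fun b => P a b)).card : ℤ)) ≤ ∑ a ∈ S, k := Finset.sum_le_sum h
    _ = S.card * k := by rw [Finset.sum_const, nsmul_eq_mul]

/-- counting the pairs of a product by the second coordinate -/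
private theorem card_prod_snd {A B : Type} (S : Finset A) (T : Finset B) (P : A → B → Prop)
    [∀ a b, Decidable (P a b)] (k : ℤ) (h : ∀ b ∈ T, ((S.filter (fun a => P a b)).card : ℤ) ≤ k) :
    (((S ×ˢ T).filter (fun p => P p.1 p.2)).card : ℤ) ≤ T.card * k := by
  have h1 : ((S ×ˢ T).filter (fun p => P p.1 p.2)).card = ∑ b ∈ T, (S.filter (fun a => P a b)).card := by
    rw [Finset.card_filter, Finset.sum_product_right]
    apply Finset.sum_congr rfl
    intro a _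
    rw [Finset.card_filter]
  rw [h1]
  push_cast
  calc (∑ b ∈ T, ((S.filter (fun a => P a b)).card : ℤ)) ≤ ∑ b ∈ T, k := Finset.sum_le_sum h
    _ = T.card * k := by rw [Finset.sum_const, nsmul_eq_mul]

/-- the possible values -/
private theorem vals [NeZero m] (hsym : ∀ x w, c x w = c w x) (hz : ZSF m c) (F : Far c s u y0 y)
    (hm : m = 17) (hs : s = 5) (hi : ii s u y = 1) :
    ((NG u y).card = 0 ∧ ((HH u y).card : ℤ) = 8 ∧ ((LL u y).card : ℤ) = 13 ∧ exL u y = 0 ∧ lo m u y = 4 ∧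
      ((xH u y0 y = 1 ∧ bb y0 y = 7 ∧ ap m u y = 1) ∨ (xH u y0 y = 0 ∧ bb y0 y = 6 ∧ ap m u y = 3) ∨
       (xH u y0 y = 0 ∧ bb y0 y = 7 ∧ ap m u y = 2) ∨ (xH u y0 y = 0 ∧ bb y0 y = 8 ∧ ap m u y = 1))) ∨
    ((NG u y).card = 1 ∧ ((HH u y).card : ℤ) = 7 ∧ ((LL u y).card : ℤ) = 14 ∧
      ((exL u y = 1 ∧ lo m u y = 2 ∧ ((xH u y0 y = 1 ∧ bb y0 y = 8 ∧ ap m u y = 1) ∨
        (xH u y0 y = 0 ∧ bb y0 y = 7 ∧ ap m u y = 3) ∨ (xH u y0 y = 0 ∧ bb y0 y = 8 ∧ ap m u y = 2) ∨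
        (xH u y0 y = 0 ∧ bb y0 y = 9 ∧ ap m u y = 1))) ∨
       (exL u y = 2 ∧ lo m u y = 1 ∧ ((xH u y0 y = 0 ∧ bb y0 y = 8 ∧ ap m u y = 2) ∨
        (xH u y0 y = 0 ∧ bb y0 y = 9 ∧ ap m u y = 1))))) := by
  have e1 := cards F
  have e2 := ex_le F
  have e3 := ng_le F
  have e4 := ng_zero F
  have e5 := lo_eq F
  have e6 := lo_pos F
  have e7 := ap_eq F
  have e8 := ap_pos F
  have e9 := xH_nonneg F
  have hb : (s : ℤ) + exL u y + xH u y0 y + 1 ≤ bb y0 y := by
    by_contra hcon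
    exact nohole hsym hz F (by omega)
  have e10 : ((HH u y).card : ℤ) + (NG u y).card = 8 := by
    unfold ii at hi
    subst hs
    push_cast at hi
    linarith
  have hm' : (m : ℤ) = 17 := by exact_mod_cast hm
  have hs' : (s : ℤ) = 5 := by exact_mod_cast hs
  rw [hm', hs'] at e1
  rw [hi, hs'] at e2
  rw [hs'] at e5 hb
  rw [hm'] at e7
  generalize lo m u y = lo at *
  generalize ap m u y = ap at *
  generalize exL u y = x at *
  generalize xH u y0 y = X at *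
  generalize bb y0 y = b at *
  generalize (HH u y).card = h at *
  generalize (LL u y).card = l at *
  generalize (NG u y).card = n at *
  have hn : n = 0 ∨ n = 1 := by
    rcases n with _ | _ | n
    · exact Or.inl rfl
    · exact Or.inr rfl
    · push_cast at e3 e10
      omega
  rcases hn with rfl | rfl
  · have hx := e4 rfl
    subst hx
    left
    omega
  · right
    push_cast at e3 e10
    have hx : x = 1 ∨ x = 2 := by omega
    rcases hx with rfl | rfl
    · omega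
    · omega

/-- (A) -/
private theorem partA [NeZero m] (hsym : ∀ x w, c x w = c w x) (hz : ZSF m c) (F : Far c s u y0 y)
    (hm : m = 17) (hs : s = 5) (hi : ii s u y = 1) {x : V} (hx : x ∈ LL u y) :
    (((Hp u y0 y).filter (fun w => lo m u y + s + exL u y + xH u y0 y ≤ dd c u y x w ∧
      10 ≤ dd c u y x w)).card : ℤ) ≤ if lo m u y + bb y0 y ≤ 10 then 0 else 2 := by
  classical
  have hxL := exL_nonneg' F
  have hxH := xH_nonneg F
  have hup : ∀ w ∈ (Hp u y0 y).filter (fun w => lo m u y + s + exL u y + xH u y0 y ≤ dd c u y x w ∧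
      10 ≤ dd c u y x w), dd c u y x w + 1 ≤ lo m u y + bb y0 y := by
    intro w hw
    rw [Finset.mem_filter] at hw
    rcases win hsym hz F hx hw.1 with h1 | h1
    · have h2 := hw.2.1
      have h3 : (0 : ℤ) ≤ s := Int.natCast_nonneg _
      omega
    · exact h1.2
  split_ifs with hlb
  · have h0 : (Hp u y0 y).filter (fun w => lo m u y + s + exL u y + xH u y0 y ≤ dd c u y x w ∧
      10 ≤ dd c u y x w) = ∅ := by
      rw [Finset.eq_empty_iff_forall_notMem]
      intro w hw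
      have h1 := hup w hw
      rw [Finset.mem_filter] at hw
      have h2 := hw.2.2
      omega
    rw [h0]
    simp
  · by_contra hcon
    have hc3 : 3 ≤ ((Hp u y0 y).filter (fun w => lo m u y + s + exL u y + xH u y0 y ≤ dd c u y x w ∧
      10 ≤ dd c u y x w)).card := by omega
    obtain ⟨W, hW, hWc⟩ := Finset.exists_subset_card_eq hc3
    have hWH : W ⊆ Hp u y0 y := hW.trans (Finset.filter_subset _ _)
    have hlow : (30 : ℤ) ≤ ∑ w ∈ W, dd c u y x w := by
      have h1 : W.card • (10 : ℤ) ≤ ∑ w ∈ W, dd c u y x w :=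
        Finset.card_nsmul_le_sum _ _ _ (fun w hw => (Finset.mem_filter.1 (hW hw)).2.2)
      rw [hWc] at h1
      simpa using h1
    have hupp : ∑ w ∈ W, dd c u y x w ≤ 3 * (lo m u y + bb y0 y - 1) := by
      have h1 : ∑ w ∈ W, dd c u y x w ≤ W.card • (lo m u y + bb y0 y - 1) :=
        Finset.sum_le_card_nsmul _ _ _ (fun w hw => by
          have h2 := hup w (hW hw)
          omega)
      rw [hWc, nsmul_eq_mul] at h1
      exact_mod_cast h1
    have hsum : ∑ w ∈ W, (1 - (1 - dd c u y x w)) = ∑ w ∈ W, dd c u y x w :=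
      Finset.sum_congr rfl (fun w _ => by ring)
    have he := e_sum F hWH
    have he1 := e_le F hx
    have ht : ∀ w ∈ W, ((1 - dd c u y x w : ℤ) : ZMod m) = c x w := fun w _ => dd_cast c u y x w
    have hm' : (m : ℤ) = 17 := by exact_mod_cast hm
    have hs' : (s : ℤ) = 5 := by exact_mod_cast hs
    have hdv : (m : ℤ) ∣ (-17) := by
      rw [hm']
      norm_num
    rcases vals hsym hz F hm hs hi with ⟨-, -, hl, hx0, hlo, hv⟩ | ⟨-, -, hl, hv⟩
    · refine f1 hsym hz F hx W hWH ?_ (fun w => 1 - dd c u y x w) ht (-17) ?_ ?_ hdv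
      · rw [hWc]
        omega
      · rw [hsum]
        omega
      · rw [hsum, hs']
        omega
    · have hv' : xH u y0 y = 0 ∧ lo m u y + bb y0 y = 11 := by omega
      refine f1' hsym hz F hx (by omega) W hWH ?_ (fun w => 1 - dd c u y x w) ht (-17) ?_ ?_ hdv
      · rw [hWc]
        omega
      · rw [hsum]
        omega
      · rw [hsum, hs']
        omega

/-- (C) -/
private theorem partC [NeZero m] (hsym : ∀ x w, c x w = c w x) (hz : ZSF m c) (F : Far c s u y0 y)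
    (hm : m = 17) (hs : s = 5) (h8 : ((HH u y).card : ℤ) = 8) (hx0 : exL u y = 0) (hlo : lo m u y = 4)
    (hX : xH u y0 y = 0) (hb : bb y0 y = 7) (hap : ap m u y = 2) {w : V} (hw : w ∈ Hp u y0 y) :
    (((LL u y).filter (fun x => lo m u y + s + exL u y + xH u y0 y ≤ dd c u y x w ∧
      2 * dd c u y x w ≤ m + 1)).card : ℤ) ≤ 2 := by
  classical
  by_contra hcon
  have hc3 : 3 ≤ ((LL u y).filter (fun x => lo m u y + s + exL u y + xH u y0 y ≤ dd c u y x w ∧
      2 * dd c u y x w ≤ m + 1)).card := by omega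
  obtain ⟨B, hB, hBc⟩ := Finset.exists_subset_card_eq hc3
  have hBL : B ⊆ LL u y := hB.trans (Finset.filter_subset _ _)
  have hm' : (m : ℤ) = 17 := by exact_mod_cast hm
  have hs' : (s : ℤ) = 5 := by exact_mod_cast hs
  have hD : ∀ x ∈ B, 1 - dd c u y x w = -8 := by
    intro x hx
    have h1 := (Finset.mem_filter.1 (hB hx)).2
    rw [hm', hs'] at h1
    omega
  have hsum : ∑ x ∈ B, (1 - dd c u y x w) = -24 := by
    rw [Finset.sum_congr rfl hD, Finset.sum_const, hBc]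
    norm_num
  have he := e_sum' F hBL
  have he' := e_le' F hw
  have ht : ∀ x ∈ B, ((1 - dd c u y x w : ℤ) : ZMod m) = c w x := fun x _ => by
    rw [hsym w x]
    exact dd_cast c u y x w
  have hdv : (m : ℤ) ∣ (-17) := by
    rw [hm']
    norm_num
  refine g0 hsym hz F hw B hBL ?_ (fun x => 1 - dd c u y x w) ht (-17) ?_ ?_ hdv
  · rw [hBc]
    omega
  · rw [hsum, hs', hm', hap, hb]
    linarith
  · rw [hsum, hm', hap, hb]
    norm_num

theorem no_far17 [NeZero m] (hsym : ∀ x w, c x w = c w x) (hz : ZSF m c) (F : Far c s u y0 y)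
    (hm : m = 17) (hs : s = 5) (hi : ii s u y = 1) : False := by
  classical
  have hm' : (m : ℤ) = 17 := by exact_mod_cast hm
  have hs' : (s : ℤ) = 5 := by exact_mod_cast hs
  have hv := vals hsym hz F hm hs hi
  have hr : 1 ≤ rho s u y0 y := by
    unfold rho
    rw [hs']
    omega
  have ht : tau m s u y0 y + 2 ≤ s := by
    have h1 := ng_le F
    have h2 := xH_nonneg F
    unfold tau
    rw [hi, hs', hm']
    omega
  have hHp := card_Hp F
  have hcnt := FR.cnt hsym hz F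
  have h6 := card_prod_fst (LL u y) (Hp u y0 y)
    (fun x w => lo m u y + s + exL u y + xH u y0 y ≤ dd c u y x w ∧ 10 ≤ dd c u y x w)
    (if lo m u y + bb y0 y ≤ 10 then 0 else 2) (fun x hx => partA hsym hz F hm hs hi hx)
  have h7 := card_prod_snd (LL u y) (Hp u y0 y)
    (fun x w => lo m u y + s + exL u y + xH u y0 y ≤ dd c u y x w ∧
      2 * dd c u y x w ≤ m + 1) (2 * ap m u y - 1) (by
      intro w hw
      have h8 := ww hsym hz F hr ht hw
      linarith)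
  have h8 : (((LL u y) ×ˢ (Hp u y0 y)).filter
      (fun p => lo m u y + s + exL u y + xH u y0 y ≤ dd c u y p.1 p.2)).card ≤
      (((LL u y) ×ˢ (Hp u y0 y)).filter (fun p => lo m u y + s + exL u y + xH u y0 y ≤ dd c u y p.1 p.2 ∧
        10 ≤ dd c u y p.1 p.2)).card +
      (((LL u y) ×ˢ (Hp u y0 y)).filter (fun p => lo m u y + s + exL u y + xH u y0 y ≤ dd c u y p.1 p.2 ∧
        2 * dd c u y p.1 p.2 ≤ m + 1)).card := by
    refine (Finset.card_le_card ?_).trans (Finset.card_union_le _ _)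
    intro p hp
    rw [Finset.mem_union, Finset.mem_filter, Finset.mem_filter]
    rw [Finset.mem_filter] at hp
    rcases le_or_gt (10 : ℤ) (dd c u y p.1 p.2) with h9 | h9
    · exact Or.inl ⟨hp.1, hp.2, h9⟩
    · exact Or.inr ⟨hp.1, hp.2, by omega⟩
  have h9 : ((((LL u y) ×ˢ (Hp u y0 y)).filter
      (fun p => lo m u y + s + exL u y + xH u y0 y ≤ dd c u y p.1 p.2)).card : ℤ) ≤
      (((LL u y) ×ˢ (Hp u y0 y)).filter (fun p => lo m u y + s + exL u y + xH u y0 y ≤ dd c u y p.1 p.2 ∧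
        10 ≤ dd c u y p.1 p.2)).card +
      (((LL u y) ×ˢ (Hp u y0 y)).filter (fun p => lo m u y + s + exL u y + xH u y0 y ≤ dd c u y p.1 p.2 ∧
        2 * dd c u y p.1 p.2 ≤ m + 1)).card := by exact_mod_cast h8
  rw [hHp] at h7
  have hbound := hcnt.trans (add_le_add_right (h9.trans (add_le_add h6 h7)) _)
  rcases hv with ⟨-, hh, hl, hx0, hlo, ⟨hX, hb, hap⟩ | ⟨hX, hb, hap⟩ | ⟨hX, hb, hap⟩ | ⟨hX, hb, hap⟩⟩ |
    ⟨-, hh, hl, ⟨hx0, hlo, ⟨hX, hb, hap⟩ | ⟨hX, hb, hap⟩ | ⟨hX, hb, hap⟩ | ⟨hX, hb, hap⟩⟩ |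
      ⟨hx0, hlo, ⟨hX, hb, hap⟩ | ⟨hX, hb, hap⟩⟩⟩
  · rw [hh, hl, hlo, hb, hap] at hbound
    norm_num at hbound
  · rw [hh, hl, hlo, hb, hap] at hbound
    norm_num at hbound
  · have h10 := card_prod_snd (LL u y) (Hp u y0 y)
      (fun x w => lo m u y + s + exL u y + xH u y0 y ≤ dd c u y x w ∧
        2 * dd c u y x w ≤ m + 1) 2 (fun w hw => partC hsym hz F hm hs hh hx0 hlo hX hb hap hw)
    rw [hHp] at h10
    have hbound' := hcnt.trans (add_le_add_right (h9.trans (add_le_add h6 h10)) _)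
    rw [hh, hl, hlo, hb, hap] at hbound'
    norm_num at hbound'
  · rw [hh, hl, hlo, hb, hap] at hbound
    norm_num at hbound
  · rw [hh, hl, hlo, hb, hap] at hbound
    norm_num at hbound
  · rw [hh, hl, hlo, hb, hap] at hbound
    norm_num at hbound
  · rw [hh, hl, hlo, hb, hap] at hbound
    norm_num at hbound
  · rw [hh, hl, hlo, hb, hap] at hbound
    norm_num at hbound
  · rw [hh, hl, hlo, hb, hap] at hbound
    norm_num at hbound
  · rw [hh, hl, hlo, hb, hap] at hbound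
    norm_num at hbound

end O1
end ZS44129
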