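import Mathlib
import Pool.Agent.Work.MP_44129c_co.O1.Root
import Pool.Agent.Work.MP_44129c_co.O1.S17
import Pool.Agent.Work.MP_44129c_co.W.Concl
import Pool.Agent.Work.MP_44129c_co.W.NumEE

/-!
# MP_44129c_co/O1, S17W (size S-M): the large class in the case `m = 17`, `s = 5`, `|BB| = 8`

PROOF.  As the beginning of `ws_false` (W/Concl; copy it and its private lemmas `posT_congr`, `norm_root`): `exists_bad` gives a bad root `y`, `hroot_odd` (`17` is odd) its lift, normalised by `wstruct`; `far` (W/Far, for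
`g * c`, `NumE` by `numE_of`) gives `Far … (vv …)` with `ii = 2 s - 1 - |BB| = 1`.  `no_far17`.
-/

set_option autoImplicit false

namespace ZS44129
namespace O1

open Finset E X1 W

variable {V : Type} [Fintype V] [DecidableEq V] {m : ℕ} {c : V → V → ZMod m} {s : ℕ} {w : V}

private theorem posT_congr {c c' : V → V → ZMod m} {y : V} {n : V → ℤ} (hB : BB c' w = BB c w)
    (P : PosT c s w y n) : PosT c' s w y n := by
  obtain ⟨h1, h2⟩ := P
  refine ⟨?_, ?_⟩
  · rw [hB]; exact h1
  · unfold EE NN Pp Qn at h2 ⊢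
    rw [hB]; exact h2

/-- a bad root can be lifted and normalised -/
private theorem norm_root [NeZero m] (h : WS c s w)
    (hroot : ∀ y, Bad c w y → ∃ (g : (ZMod m)ˣ) (z0 : ℤ) (n : V → ℤ),
      RL (fun a b => (g : ZMod m) * c a b) s (m - (BB c w).card) w y z0 n) {y : V} (hy : Bad c w y) :
    ∃ (g : (ZMod m)ˣ) (z0 : ℤ) (n : V → ℤ),
      RL (fun a b => (g : ZMod m) * c a b) s (m - (BB c w).card) w y z0 n ∧
        PosT (fun a b => (g : ZMod m) * c a b) s w y n := by
  obtain ⟨g, z0, n, R⟩ := hroot y hy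
  obtain ⟨h', -, hB, -⟩ := ws_scale h g
  have he2 := h.e2
  have hm1 := h.m1
  have hs4 := h.s4
  rcases wstruct h'.toWS0 R (by rw [hB]; omega) with P | P
  · exact ⟨g, z0, n, R, P⟩
  · have hfun : (fun a b => ((-g : (ZMod m)ˣ) : ZMod m) * c a b) =
        fun a b => - ((g : ZMod m) * c a b) := by
      funext a b
      rw [Units.val_neg, neg_mul]
    refine ⟨-g, m - z0, fun x => - n x, ?_, ?_⟩
    · rw [hfun]
      exact rl_neg R
    · refine posT_congr ?_ P
      rw [(ws_scale h (-g)).2.2.1, hB]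

theorem s17 [NeZero m] (h : WS c s w) (hm : m = 17) (hs : s = 5) (he : (BB c w).card = 8) : False := by
  obtain ⟨y, hbad⟩ := exists_bad h
  obtain ⟨g, z0, n, R, P⟩ := norm_root h (fun y hy => hroot_odd h (by omega) hy) hbad
  obtain ⟨h', hA, hB, hX⟩ := ws_scale h g
  have hn : NumE m s := numE_of (by omega) (by omega) (by omega) (by omega) (by omega)
  obtain ⟨F, hexL, hxH, hii⟩ := far h' hn R P
  rw [hB, he] at hii
  refine no_far17 h'.sym h'.zsf F hm hs ?_
  rw [hii, hs]
  norm_num

end O1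
end ZS44129
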