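import Mathlib
import Pool.Agent.Work.MP_44129c_co.O1.PartA
import Pool.Agent.Work.MP_44129c_co.O1.PartZ
import Pool.Agent.Work.MP_44129c_co.O1.Large
import Pool.Agent.Work.MP_44129c_co.O1.S17W

/-!
# MP_44129c_co/O1, OddT (size S-M): odd `m`, `m ≤ 3 s + 1`; and `m = 3 s + 2`: the setting `St`

`n = m + s - 1 = |V| - 1`, `k = |cla c u a|`.
PROOF of `odd_neg` (`m ≤ 3 s`).  `partA` gives a class with `k ≥ m - s`.  `n ≤ 4 s - 1`, `4 (n - k) k ≤ n² < 4 s n`: `no_large`.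
PROOF of `odd_zero` (`m = 3 s + 1`, `n = 4 s`).  If all classes have at most `2 s` elements: `partZ`.  Otherwise a class has `k ≥ 2 s + 1 = m - s`, `(4 s - k) k < 4 s²` (as `(k - 2 s)² > 0`): `no_large` (`h5`: `s ≥ 5`).
PROOF of `odd_one` (`m = 3 s + 2`, `n = 4 s + 1`).  Let `I` be the largest integer with `I (I + 1) ≤ s` (`Nat.findGreatest`, or `Nat.find` for the first `I` with `(I + 1)(I + 2) > s`).  Suppose a class has
`k ≥ 2 s + 2 + I` elements, `k = 2 s + 1 + i`, `i ≥ I + 1`, so `i (i + 1) > s`; `(n - k) k = (2 s - i)(2 s + 1 + i) = 4 s² + 2 s - i (i + 1) < s (4 s + 1)`, and `k ≥ 2 s + 2 = m - s`: `no_large`, except for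
`m = 17`, `s = 5`, `k = 13`: `s17` (the class has colour `a`; `ws_of`, `|BB| = 8`).  `St` holds (`s5`: `s` is odd, `s ≥ 5`, `s ≠ 7` given).
-/

set_option autoImplicit false

namespace ZS44129
namespace O1

open Finset E X1 W

variable {V : Type} [Fintype V] [DecidableEq V] {m : ℕ} {c : V → V → ZMod m} {s : ℕ}

theorem odd_neg [NeZero m] (h : OS c s) (hm : m ≤ 3 * s) : False := by
  obtain ⟨u, a, h1⟩ := partA h hm
  have hm1 := h.m1
  have hs4 := h.s4
  refine no_large h (Or.inl hm) h1 ?_ (by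
    rintro ⟨h2, h3, -⟩
    omega)
  obtain ⟨n, hn⟩ : ∃ n : ℤ, n = (m : ℤ) + s - 1 := ⟨_, rfl⟩
  obtain ⟨k, hk⟩ : ∃ k : ℤ, k = ((cla c u a).card : ℤ) := ⟨_, rfl⟩
  rw [← hn, ← hk]
  have hn0 : 0 < n := by omega
  have hn4 : n < 4 * s := by omega
  nlinarith [sq_nonneg (n - 2 * k), mul_pos hn0 (sub_pos.2 hn4)]

theorem odd_zero [NeZero m] (h : OS c s) (hs : 5 ≤ s) (hm : m = 3 * s + 1) :
    ∃ b : V → V → Bool, (∀ x y, b x y = b y x) ∧ MF m b := by
  by_cases hcl : ∀ x a, (cla c x a).card ≤ 2 * s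
  · exact partZ h hm hcl
  · exfalso
    push Not at hcl
    obtain ⟨u, a, h1⟩ := hcl
    refine no_large h (Or.inr hs) (u := u) (a := a) (by omega) ?_ (by
      rintro ⟨h2, h3, -⟩
      omega)
    obtain ⟨k, hk⟩ : ∃ k : ℤ, k = ((cla c u a).card : ℤ) := ⟨_, rfl⟩
    have hk1 : 2 * (s : ℤ) + 1 ≤ k := by omega
    have hn : (m : ℤ) + s - 1 = 4 * s := by omega
    rw [hn, ← hk]
    have h4 : 0 < k - 2 * s := by linarith
    nlinarith [mul_pos h4 h4]

theorem odd_one [NeZero m] (h : OS c s) (hs : s = 5 ∨ 8 ≤ s) (hm : m = 3 * s + 2) :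
    ∃ I, St c s I := by
  obtain ⟨I, hI, hmax⟩ : ∃ I, I * (I + 1) ≤ s ∧ ∀ i, I < i → s < i * (i + 1) := by
    refine ⟨Nat.findGreatest (fun I => I * (I + 1) ≤ s) s,
      Nat.findGreatest_spec (P := fun I => I * (I + 1) ≤ s) (Nat.zero_le s) (by simp), ?_⟩
    intro i hi
    rcases Nat.lt_or_ge s i with h1 | h1
    · nlinarith
    · have h2 := Nat.findGreatest_is_greatest (P := fun I => I * (I + 1) ≤ s) hi h1
      exact not_le.1 h2
  refine ⟨I, h.sym, h.zsf, h.card, hm, hs, hI, ?_⟩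
  intro u a
  by_contra hcon
  obtain ⟨i, hi⟩ : ∃ i, (cla c u a).card = 2 * s + 1 + i := ⟨(cla c u a).card - (2 * s + 1), by omega⟩
  have hi2 := hmax i (by omega)
  have h1 : m ≤ (cla c u a).card + s := by omega
  have h2 : ((m : ℤ) + s - 1 - (cla c u a).card) * (cla c u a).card < s * (m + s - 1) := by
    have e1 : ((cla c u a).card : ℤ) = 2 * s + 1 + i := by exact_mod_cast hi
    have e2 : (m : ℤ) + s - 1 = 4 * s + 1 := by omega
    have e3 : (s : ℤ) < i * (i + 1) := by exact_mod_cast hi2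
    rw [e1, e2]
    nlinarith
  by_cases hex : m = 17 ∧ s = 5 ∧ (cla c u a).card = 13
  · obtain ⟨h3, h4, h5⟩ := hex
    obtain ⟨hw, hb⟩ := ws_of h h1 h2
    exact s17 hw h3 h4 (by omega)
  · exact no_large h (Or.inr (by omega)) h1 h2 hex

end O1
end ZS44129
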